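import Mathlib

/-!
Abstract triangulations of an 18-gon (vertices `0, ..., 17` in cyclic order) in which the
diagonals inside the two blocks `1..8` and `9..16` are not allowed.
-/

namespace Pool.Agent.N386.HF

/-- allowed diagonals -/
def Al (a b : ℕ) : Prop :=
  a + 1 < b ∧ b < 18 ∧ ¬(a = 0 ∧ b = 17) ∧ ¬(1 ≤ a ∧ b ≤ 8) ∧ ¬(9 ≤ a ∧ b ≤ 16)

/-- interleaving pairs -/
def Inter (a b c d : ℕ) : Prop := (a < c ∧ c < b ∧ b < d) ∨ (c < a ∧ a < d ∧ d < b)

/-- sides of the 18-gon -/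
def Side (a b : ℕ) : Prop := (b = a + 1 ∧ b < 18) ∨ (a = 0 ∧ b = 17)

/-- triangulation by allowed diagonals: maximal without crossings -/
structure Good (D : ℕ → ℕ → Prop) : Prop where
  nc : ∀ a b c d, Al a b → Al c d → Inter a b c d → D a b → D c d → False
  mx : ∀ a b, Al a b → ¬ D a b → ∃ c d, Al c d ∧ D c d ∧ Inter a b c d

def Adj (D : ℕ → ℕ → Prop) (a b : ℕ) : Prop := Side a b ∨ (Al a b ∧ D a b)

/-- removed diagonals -/
def Rem (D D' : ℕ → ℕ → Prop) (a b : ℕ) : Prop := Al a b ∧ D a b ∧ ¬ D' a b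

/-- no two removed diagonals in a common triangle -/
def Step (D D' : ℕ → ℕ → Prop) : Prop :=
  ∀ a b c, a < b → b < c → c < 18 → Adj D a b → Adj D b c → Adj D a c →
    ¬(Rem D D' a b ∧ Rem D D' b c) ∧ ¬(Rem D D' a b ∧ Rem D D' a c) ∧
      ¬(Rem D D' b c ∧ Rem D D' a c)

variable {D D' : ℕ → ℕ → Prop}

/-- an element of `D` does not interleave with an adjacent pair -/
lemma Good.ncAdj (h : Good D) {a b c d : ℕ} (h1 : Adj D a b) (hc : Al c d) (hD : D c d)
    (hi : Inter a b c d) : False := by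
  rcases h1 with h1 | ⟨h1, h2⟩
  · rcases h1 with h1 | h1 <;> rcases hi with hi | hi <;> (have := hc.2.1; omega)
  · exact h.nc a b c d h1 hc hi h2 hD

lemma Good.ncAdj2 (h : Good D) {a b c d : ℕ} (h1 : Adj D a b) (h2 : Adj D c d)
    (hi : Inter a b c d) : False := by
  rcases h2 with h2 | ⟨h2, h3⟩
  · have hb : b < 18 := by
      rcases h1 with h1 | h1
      · rcases h1 with h1 | h1 <;> omega
      · exact h1.1.2.1
    rcases h2 with h2 | h2 <;> rcases hi with hi | hi <;> omega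
  · exact h.ncAdj h1 h2 h3 hi

/-- the only diagonal crossing `(p, r)` is `(q, s)` -/
lemma Good.uniqA (h : Good D) {p q r s c d : ℕ} (hpq : p < q) (hqr : q < r) (hrs : r < s)
    (hs : s < 18) (a1 : Adj D p q) (a2 : Adj D q r) (a3 : Adj D r s) (a4 : Adj D p s)
    (hc : Al c d) (hD : D c d) (hi : Inter p r c d) : c = q ∧ d = s := by
  rcases hi with hi | hi
  · have e1 : c = q := by
      rcases lt_trichotomy c q with h1 | h1 | h1
      · exact (h.ncAdj a1 hc hD (Or.inl ⟨by omega, by omega, by omega⟩)).elim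
      · exact h1
      · exact (h.ncAdj a2 hc hD (Or.inl ⟨by omega, by omega, by omega⟩)).elim
    refine ⟨e1, ?_⟩
    rcases lt_trichotomy d s with h1 | h1 | h1
    · exact (h.ncAdj a3 hc hD (Or.inr ⟨by omega, by omega, by omega⟩)).elim
    · exact h1
    · exact (h.ncAdj a4 hc hD (Or.inl ⟨by omega, by omega, by omega⟩)).elim
  · exact (h.ncAdj a4 hc hD (Or.inr ⟨by omega, by omega, by omega⟩)).elim

/-- the only diagonal crossing `(q, s)` is `(p, r)` -/
lemma Good.uniqB (h : Good D) {p q r s c d : ℕ} (hpq : p < q) (hqr : q < r) (hrs : r < s)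
    (hs : s < 18) (a1 : Adj D p q) (a2 : Adj D q r) (a3 : Adj D r s) (a4 : Adj D p s)
    (hc : Al c d) (hD : D c d) (hi : Inter q s c d) : c = p ∧ d = r := by
  rcases hi with hi | hi
  · exact (h.ncAdj a4 hc hD (Or.inl ⟨by omega, by omega, by omega⟩)).elim
  · have e1 : d = r := by
      rcases lt_trichotomy d r with h1 | h1 | h1
      · exact (h.ncAdj a2 hc hD (Or.inr ⟨by omega, by omega, by omega⟩)).elim
      · exact h1
      · exact (h.ncAdj a3 hc hD (Or.inr ⟨by omega, by omega, by omega⟩)).elim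
    refine ⟨?_, e1⟩
    rcases lt_trichotomy c p with h1 | h1 | h1
    · exact (h.ncAdj a4 hc hD (Or.inr ⟨by omega, by omega, by omega⟩)).elim
    · exact h1
    · exact (h.ncAdj a1 hc hD (Or.inl ⟨by omega, by omega, by omega⟩)).elim

lemma adj_of_not_rem {a b : ℕ} (h : Adj D a b) (hr : ¬ Rem D D' a b) : Adj D' a b := by
  rcases h with h | ⟨h1, h2⟩
  · exact Or.inl h
  · refine Or.inr ⟨h1, ?_⟩
    by_contra h3
    exact hr ⟨h1, h2, h3⟩

/-- flipping the diagonal `(p, r)` -/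
lemma flipA (h' : Good D') (st : Step D D') {p q r s : ℕ} (hpq : p < q)
    (hqr : q < r) (hrs : r < s) (hs : s < 18) (a1 : Adj D p q) (a2 : Adj D q r) (a3 : Adj D r s)
    (a4 : Adj D p s) (he : Rem D D' p r) :
    (Adj D' p q ∧ Adj D' q r ∧ Adj D' r s ∧ Adj D' p s) ∧ Al q s ∧ D' q s := by
  have ae : Adj D p r := Or.inr ⟨he.1, he.2.1⟩
  have s1 := st p q r hpq hqr (by omega) a1 a2 ae
  have s2 := st p r s (by omega) hrs hs ae a3 a4
  have b1 := adj_of_not_rem a1 (fun h => s1.2.1 ⟨h, he⟩)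
  have b2 := adj_of_not_rem a2 (fun h => s1.2.2 ⟨h, he⟩)
  have b3 := adj_of_not_rem a3 (fun h => s2.1 ⟨he, h⟩)
  have b4 := adj_of_not_rem a4 (fun h => s2.2.1 ⟨he, h⟩)
  refine ⟨⟨b1, b2, b3, b4⟩, ?_⟩
  obtain ⟨c, d, hc, hD, hi⟩ := h'.mx p r he.1 he.2.2
  obtain ⟨rfl, rfl⟩ := h'.uniqA hpq hqr hrs hs b1 b2 b3 b4 hc hD hi
  exact ⟨hc, hD⟩

/-- flipping the diagonal `(q, s)` -/
lemma flipB (h' : Good D') (st : Step D D') {p q r s : ℕ} (hpq : p < q)
    (hqr : q < r) (hrs : r < s) (hs : s < 18) (a1 : Adj D p q) (a2 : Adj D q r) (a3 : Adj D r s)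
    (a4 : Adj D p s) (he : Rem D D' q s) :
    (Adj D' p q ∧ Adj D' q r ∧ Adj D' r s ∧ Adj D' p s) ∧ Al p r ∧ D' p r := by
  have ae : Adj D q s := Or.inr ⟨he.1, he.2.1⟩
  have s1 := st q r s hqr hrs hs a2 a3 ae
  have s2 := st p q s hpq (by omega) hs a1 ae a4
  have b1 := adj_of_not_rem a1 (fun h => s2.1 ⟨h, he⟩)
  have b2 := adj_of_not_rem a2 (fun h => s1.2.1 ⟨h, he⟩)
  have b3 := adj_of_not_rem a3 (fun h => s1.2.2 ⟨h, he⟩)
  have b4 := adj_of_not_rem a4 (fun h => s2.2.2 ⟨he, h⟩)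
  refine ⟨⟨b1, b2, b3, b4⟩, ?_⟩
  obtain ⟨c, d, hc, hD, hi⟩ := h'.mx q s he.1 he.2.2
  obtain ⟨rfl, rfl⟩ := h'.uniqB hpq hqr hrs hs b1 b2 b3 b4 hc hD hi
  exact ⟨hc, hD⟩

/-- a largest element of a nonempty bounded set of natural numbers -/
lemma exists_max (P : ℕ → Prop) (B : ℕ) (h : ∃ n, P n) (hB : ∀ n, P n → n < B) :
    ∃ n, P n ∧ ∀ m, P m → m ≤ n := by
  classical
  obtain ⟨n, hn⟩ := h
  have hne : ((Finset.range B).filter P).Nonempty := ⟨n, by simp [hn, hB n hn]⟩
  refine ⟨((Finset.range B).filter P).max' hne, ?_, ?_⟩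
  · have := Finset.max'_mem _ hne
    simp only [Finset.mem_filter] at this
    exact this.2
  · intro m hm
    exact Finset.le_max' _ _ (by simp [hm, hB m hm])

/-- the triangle on the inner side of a diagonal -/
lemma Good.inner (h : Good D) {a b : ℕ} (hal : Al a b) (hD : D a b) :
    ∃ x, a < x ∧ x < b ∧ Adj D a x ∧ Adj D x b := by
  obtain ⟨z, ⟨hz1, hz2, hz3⟩, hmax⟩ := exists_max (fun z => a < z ∧ z < b ∧ Adj D a z) b
    ⟨a + 1, by omega, hal.1, Or.inl (Or.inl ⟨rfl, by have := hal.1; have := hal.2.1; omega⟩)⟩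
    (fun n hn => hn.2.1)
  have hab : Adj D a b := Or.inr ⟨hal, hD⟩
  have hA := hal
  unfold Al at hA
  refine ⟨z, hz1, hz2, hz3, ?_⟩
  by_cases hs : Side z b
  · exact Or.inl hs
  by_cases hzb : Al z b
  · refine Or.inr ⟨hzb, ?_⟩
    by_contra hcon
    obtain ⟨c, d, hc, hDc, hi⟩ := h.mx z b hzb hcon
    rcases hi with hi | hi
    · exact h.ncAdj hab hc hDc (Or.inl ⟨by omega, by omega, by omega⟩)
    · rcases lt_trichotomy c a with h1 | h1 | h1
      · exact h.ncAdj hab hc hDc (Or.inr ⟨by omega, by omega, by omega⟩)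
      · subst h1
        have := hmax d ⟨by omega, by omega, Or.inr ⟨hc, hDc⟩⟩
        omega
      · exact h.ncAdj hz3 hc hDc (Or.inl ⟨by omega, by omega, by omega⟩)
  · have hch : (1 ≤ z ∧ b ≤ 8) ∨ (9 ≤ z ∧ b ≤ 16) := by
      unfold Al Side at *
      omega
    have hzb2 : z + 1 < b := by
      unfold Side at hs
      omega
    have haw : Al a (z + 1) := by
      unfold Al
      omega
    by_cases hDw : D a (z + 1)
    · have := hmax (z + 1) ⟨by omega, by omega, Or.inr ⟨haw, hDw⟩⟩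
      omega
    · exfalso
      obtain ⟨c, d, hc, hDc, hi⟩ := h.mx a (z + 1) haw hDw
      rcases hi with hi | hi
      · rcases lt_or_ge b d with h1 | h1
        · exact h.ncAdj hab hc hDc (Or.inl ⟨by omega, by omega, by omega⟩)
        · rcases lt_or_eq_of_le (show c ≤ z by omega) with h2 | h2
          · exact h.ncAdj hz3 hc hDc (Or.inl ⟨by omega, by omega, by omega⟩)
          · subst h2
            unfold Al at hc
            omega
      · exact h.ncAdj hab hc hDc (Or.inr ⟨by omega, by omega, by omega⟩)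

/-- the triangle on the outer side of a diagonal -/
lemma Good.outer (h : Good D) {a b : ℕ} (hal : Al a b) (hD : D a b) :
    ∃ y, (y < a ∧ Adj D y a ∧ Adj D y b) ∨ (b < y ∧ y < 18 ∧ Adj D b y ∧ Adj D a y) := by
  have hab : Adj D a b := Or.inr ⟨hal, hD⟩
  have hA := hal
  unfold Al at hA
  obtain ⟨k, hk, hmax⟩ := exists_max
    (fun k => (b < k ∧ k < 18 ∧ Adj D b k) ∨ (18 ≤ k ∧ k < 18 + a ∧ Adj D (k - 18) b)) (18 + a)
    (by
      by_cases hb : b = 17
      · refine ⟨18, Or.inr ⟨le_refl _, by omega, ?_⟩⟩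
        exact Or.inl (Or.inr ⟨by omega, hb⟩)
      · exact ⟨b + 1, Or.inl ⟨by omega, by omega, Or.inl (Or.inl ⟨rfl, by omega⟩)⟩⟩)
    (by intro n hn; omega)
  rcases hk with ⟨hk1, hk2, hk3⟩ | ⟨hk1, hk2, hk3⟩
  · -- the last neighbour is after b
    refine ⟨k, Or.inr ⟨hk1, hk2, hk3, ?_⟩⟩
    by_cases hs : Side a k
    · exact Or.inl hs
    by_cases hak : Al a k
    · refine Or.inr ⟨hak, ?_⟩
      by_contra hcon
      obtain ⟨c, d, hc, hDc, hi⟩ := h.mx a k hak hcon
      have hd18 := hc.2.1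
      rcases hi with hi | hi
      · rcases lt_trichotomy c b with h1 | h1 | h1
        · exact h.ncAdj hab hc hDc (Or.inl ⟨by omega, by omega, by omega⟩)
        · subst h1
          have := hmax d (Or.inl ⟨by omega, by omega, Or.inr ⟨hc, hDc⟩⟩)
          omega
        · exact h.ncAdj hk3 hc hDc (Or.inl ⟨by omega, by omega, by omega⟩)
      · rcases lt_trichotomy d b with h1 | h1 | h1
        · exact h.ncAdj hab hc hDc (Or.inr ⟨by omega, by omega, by omega⟩)
        · subst h1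
          have := hmax (c + 18) (Or.inr ⟨by omega, by omega, by
            rw [Nat.add_sub_cancel]; exact Or.inr ⟨hc, hDc⟩⟩)
          omega
        · exact h.ncAdj hk3 hc hDc (Or.inr ⟨by omega, by omega, by omega⟩)
    · exfalso
      unfold Al Side at *
      omega
  · obtain ⟨z, rfl⟩ : ∃ z, k = z + 18 := ⟨k - 18, by omega⟩
    rw [Nat.add_sub_cancel] at hk3
    refine ⟨z, Or.inl ⟨by omega, ?_, hk3⟩⟩
    by_cases hs : Side z a
    · exact Or.inl hs
    by_cases hza : Al z a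
    · refine Or.inr ⟨hza, ?_⟩
      by_contra hcon
      obtain ⟨c, d, hc, hDc, hi⟩ := h.mx z a hza hcon
      rcases hi with hi | hi
      · rcases lt_trichotomy d b with h1 | h1 | h1
        · exact h.ncAdj hab hc hDc (Or.inr ⟨by omega, by omega, by omega⟩)
        · subst h1
          have := hmax (c + 18) (Or.inr ⟨by omega, by omega, by
            rw [Nat.add_sub_cancel]; exact Or.inr ⟨hc, hDc⟩⟩)
          omega
        · exact h.ncAdj hk3 hc hDc (Or.inl ⟨by omega, by omega, by omega⟩)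
      · exact h.ncAdj hk3 hc hDc (Or.inr ⟨by omega, by omega, by omega⟩)
    · have hch : (1 ≤ z ∧ a ≤ 8) ∨ (9 ≤ z ∧ a ≤ 16) := by
        unfold Al Side at *
        omega
      have hza2 : z + 1 < a := by
        unfold Side at hs
        omega
      have hwb : Al (z + 1) b := by
        unfold Al
        omega
      by_cases hDw : D (z + 1) b
      · have := hmax (z + 1 + 18) (Or.inr ⟨by omega, by omega, by
            rw [Nat.add_sub_cancel]; exact Or.inr ⟨hwb, hDw⟩⟩)
        omega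
      · exfalso
        obtain ⟨c, d, hc, hDc, hi⟩ := h.mx (z + 1) b hwb hDw
        rcases hi with hi | hi
        · exact h.ncAdj hk3 hc hDc (Or.inl ⟨by omega, by omega, by omega⟩)
        · rcases lt_or_eq_of_le (show c ≤ z by omega) with h1 | h1
          · exact h.ncAdj hk3 hc hDc (Or.inr ⟨by omega, by omega, by omega⟩)
          · subst h1
            rcases le_or_gt d a with h2 | h2
            · unfold Al at hc
              omega
            · exact h.ncAdj hab hc hDc (Or.inr ⟨by omega, by omega, by omega⟩)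

/-- unordered adjacency -/
def AdjU (D : ℕ → ℕ → Prop) (a b : ℕ) : Prop := Adj D (min a b) (max a b)

lemma adjU_of_lt {a b : ℕ} (h : a < b) : AdjU D a b ↔ Adj D a b := by
  unfold AdjU
  rw [min_eq_left h.le, max_eq_right h.le]

lemma adjU_of_gt {a b : ℕ} (h : b < a) : AdjU D a b ↔ Adj D b a := by
  unfold AdjU
  rw [min_eq_right h.le, max_eq_left h.le]

/-- the quadrilateral around an added diagonal -/
lemma added_quad (h : Good D) (h' : Good D') (st : Step D D') {a b : ℕ} (hr : Rem D' D a b) :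
    ∃ p q r s, p < q ∧ q < r ∧ r < s ∧ s < 18 ∧
      (Adj D p q ∧ Adj D q r ∧ Adj D r s ∧ Adj D p s) ∧
      (Adj D' p q ∧ Adj D' q r ∧ Adj D' r s ∧ Adj D' p s) ∧
      ((a = q ∧ b = s) ∨ (a = p ∧ b = r)) := by
  obtain ⟨c, d, hc, hDc, hi⟩ := h.mx a b hr.1 hr.2.2
  have hncd : ¬ D' c d := fun hh => h'.nc a b c d hr.1 hc hi hr.2.1 hh
  have hrem : Rem D D' c d := ⟨hc, hDc, hncd⟩
  have hi' : Inter c d a b := by unfold Inter at *; omega
  obtain ⟨x, hx1, hx2, hx3, hx4⟩ := h.inner hc hDc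
  have hd18 := hc.2.1
  obtain ⟨y, ⟨hy1, hy2, hy3⟩ | ⟨hy1, hy2, hy3, hy4⟩⟩ := h.outer hc hDc
  · -- y < c < x < d ; removed (q, s) = (c, d)
    obtain ⟨⟨b1, b2, b3, b4⟩, -⟩ := flipB h' st hy1 hx1 hx2 hd18 hy2 hx3 hx4 hy3 hrem
    refine ⟨y, c, x, d, hy1, hx1, hx2, hd18, ⟨hy2, hx3, hx4, hy3⟩, ⟨b1, b2, b3, b4⟩, Or.inr ?_⟩
    exact h'.uniqB hy1 hx1 hx2 hd18 b1 b2 b3 b4 hr.1 hr.2.1 hi'
  · obtain ⟨⟨b1, b2, b3, b4⟩, -⟩ := flipA h' st hx1 hx2 hy1 hy2 hx3 hx4 hy3 hy4 hrem
    refine ⟨c, x, d, y, hx1, hx2, hy1, hy2, ⟨hx3, hx4, hy3, hy4⟩, ⟨b1, b2, b3, b4⟩, Or.inl ?_⟩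
    exact h'.uniqA hx1 hx2 hy1 hy2 b1 b2 b3 b4 hr.1 hr.2.1 hi'

/-- both triangles at an added diagonal have their other sides in the old triangulation -/
lemma added_tri (h : Good D) (h' : Good D') (st : Step D D') {u v t : ℕ} (hr : Rem D' D u v)
    (ht : t < 18) (htu : t ≠ u) (htv : t ≠ v) (h1 : AdjU D' t u) (h2 : AdjU D' t v) :
    AdjU D t u ∧ AdjU D t v := by
  obtain ⟨p, q, r, s, hpq, hqr, hrs, hs, ⟨a1, a2, a3, a4⟩, ⟨b1, b2, b3, b4⟩, ⟨rfl, rfl⟩ | ⟨rfl, rfl⟩⟩ :=
    added_quad h h' st hr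
  · -- (u, v) = (q, s)
    rcases lt_trichotomy t u with g | g | g
    · rw [adjU_of_lt g] at h1 ⊢
      rw [adjU_of_lt (show t < v by omega)] at h2 ⊢
      have : t = p := by
        rcases lt_trichotomy t p with g1 | g1 | g1
        · exact (h'.ncAdj2 b4 h1 (Or.inr ⟨by omega, by omega, by omega⟩)).elim
        · exact g1
        · exact (h'.ncAdj2 b1 h2 (Or.inl ⟨by omega, by omega, by omega⟩)).elim
      subst this
      exact ⟨a1, a4⟩
    · exact absurd g htu
    · rcases lt_trichotomy t v with g2 | g2 | g2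
      · rw [adjU_of_gt g] at h1 ⊢
        rw [adjU_of_lt g2] at h2 ⊢
        have : t = r := by
          rcases lt_trichotomy t r with g1 | g1 | g1
          · exact (h'.ncAdj2 b2 h2 (Or.inl ⟨by omega, by omega, by omega⟩)).elim
          · exact g1
          · exact (h'.ncAdj2 b3 h1 (Or.inr ⟨by omega, by omega, by omega⟩)).elim
        subst this
        exact ⟨a2, a3⟩
      · exact absurd g2 htv
      · rw [adjU_of_gt g] at h1
        exact (h'.ncAdj2 b4 h1 (Or.inl ⟨by omega, by omega, by omega⟩)).elim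
  · -- (u, v) = (p, r)
    rcases lt_trichotomy t u with g | g | g
    · rw [adjU_of_lt (show t < v by omega)] at h2
      exact (h'.ncAdj2 b4 h2 (Or.inr ⟨by omega, by omega, by omega⟩)).elim
    · exact absurd g htu
    · rcases lt_trichotomy t v with g2 | g2 | g2
      · rw [adjU_of_gt g] at h1 ⊢
        rw [adjU_of_lt g2] at h2 ⊢
        have : t = q := by
          rcases lt_trichotomy t q with g1 | g1 | g1
          · exact (h'.ncAdj2 b1 h2 (Or.inl ⟨by omega, by omega, by omega⟩)).elim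
          · exact g1
          · exact (h'.ncAdj2 b2 h1 (Or.inr ⟨by omega, by omega, by omega⟩)).elim
        subst this
        exact ⟨a1, a2⟩
      · exact absurd g2 htv
      · rw [adjU_of_gt g] at h1 ⊢
        rw [adjU_of_gt g2] at h2 ⊢
        have : t = s := by
          rcases lt_trichotomy t s with g1 | g1 | g1
          · exact (h'.ncAdj2 b3 h1 (Or.inr ⟨by omega, by omega, by omega⟩)).elim
          · exact g1
          · exact (h'.ncAdj2 b4 h2 (Or.inl ⟨by omega, by omega, by omega⟩)).elim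
        subst this
        exact ⟨a4, a3⟩

lemma not_rem_of_adj {a b : ℕ} (h : Adj D a b) : ¬ Rem D' D a b := by
  rintro ⟨h1, h2, h3⟩
  rcases h with h | h
  · unfold Al at h1
    unfold Side at h
    omega
  · exact h3 h.2

/-- parallel flips are symmetric -/
theorem step_symm (h : Good D) (h' : Good D') (st : Step D D') : Step D' D := by
  intro a b c hab hbc hc h1 h2 h3
  refine ⟨?_, ?_, ?_⟩
  · rintro ⟨r1, r2⟩
    have := added_tri h h' st r1 hc (by omega) (by omega) ((adjU_of_gt (by omega)).2 h3)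
      ((adjU_of_gt hbc).2 h2)
    exact not_rem_of_adj ((adjU_of_gt hbc).1 this.2) r2
  · rintro ⟨r1, r2⟩
    have := added_tri h h' st r1 hc (by omega) (by omega) ((adjU_of_gt (by omega)).2 h3)
      ((adjU_of_gt hbc).2 h2)
    exact not_rem_of_adj ((adjU_of_gt (by omega)).1 this.1) r2
  · rintro ⟨r1, r2⟩
    have := added_tri h h' st r1 (show a < 18 by omega) (by omega) (by omega)
      ((adjU_of_lt hab).2 h1) ((adjU_of_lt (by omega)).2 h3)
    exact not_rem_of_adj ((adjU_of_lt (by omega)).1 this.2) r2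

end Pool.Agent.N386.HF
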