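import Pool.Agent.N386.HF.Data

/-! The finite check. -/

set_option exponentiation.threshold 1000

namespace Pool.Agent.N386.HF

lemma crL_ok : listB crL = true := by decide +kernel

lemma crL_lt : (crL.all fun t => Nat.blt t.2.2 (2 ^ 361)) = true := by decide +kernel

lemma fwd_closed : closedB crL 5 fwdT = true := by decide +kernel

lemma bwd_closed : closedB crL 5 bwdT = true := by decide +kernel

/-- the two balls are disjoint -/
lemma disj : (fwdT.all fun m _ _ => !(bwdT.look m 100)) = true := by
  decide +kernel

/-- look-up finds all masks of the second tree -/
lemma bwd_self : (bwdT.all fun m _ _ => bwdT.look m 100) = true := by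
  decide +kernel

/-- the masks only contain allowed diagonals -/
lemma fwd_can : (fwdT.all fun m _ _ => Nat.beq (Nat.land m alM) m) = true := by
  decide +kernel

lemma bwd_can : (bwdT.all fun m _ _ => Nat.beq (Nat.land m alM) m) = true := by
  decide +kernel

/-- the mask `alM` consists of the allowed diagonals -/
lemma alM_ok : ((List.range 361).all fun c => (alM.testBit c == alB (c / 19) (c % 19))) = true := by
  decide +kernel

lemma alM_lt : Nat.blt alM (2 ^ 361) = true := by decide +kernel

/-- mask of the first star -/
def mT : ℕ := 8148159446718724982290316968261857015728807017365117845558030650472812508342341313146912768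

/-- mask of the second star -/
def mT' : ℕ := 131068

lemma root_fwd : fwdT.look mT 0 = true := by decide +kernel

lemma root_bwd : bwdT.look mT' 0 = true := by decide +kernel

end Pool.Agent.N386.HF
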