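import Pool.Agent.N386.HF.Tab

/-! Finite checks on the tables. -/

set_option exponentiation.threshold 1000

namespace Pool.Agent.N386.HF

def orB (i j k : ℕ) : Bool := tb orN (361 * i + 19 * j + k)

lemma injB : ((List.range 19).all fun i => (List.range 19).all fun j =>
    Nat.beq i j || !(Nat.beq (cx i) (cx j) && Nat.beq (cy i) (cy j))) = true := by
  decide +kernel

lemma orB_ok : ((List.range 19).all fun i => (List.range 19).all fun j =>
    (List.range 19).all fun k => orB i j k == ccw i j k) = true := by
  decide +kernel

/-- do the segments `i j` and `k l` cross -/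
def crossB (i j k l : ℕ) : Bool :=
  !(Nat.beq i k) && !(Nat.beq i l) && !(Nat.beq j k) && !(Nat.beq j l) &&
    (Bool.xor (orB i j k) (orB i j l)) && (Bool.xor (orB k l i) (orB k l j))

/-- every pair `i < j` is in the list -/
lemma cmL_complete : ((List.range 19).all fun i => (List.range 19).all fun j =>
    !(Nat.blt i j) || cmL.any fun t => Nat.beq t.1 i && Nat.beq t.2.1 j) = true := by
  decide +kernel

/-- the list only has pairs `i < j` below `19` -/
lemma cmL_sound : (cmL.all fun t => Nat.blt t.1 t.2.1 && Nat.blt t.2.1 19) = true := by
  decide +kernel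

/-- the crossing masks are correct -/
lemma cmL_cross : (cmL.all fun t => cmL.all fun u =>
    tb t.2.2 (code u.1 u.2.1) == crossB t.1 t.2.1 u.1 u.2.1) = true := by
  decide +kernel

lemma cmL_full : (cmL.all fun t => Nat.beq (Nat.land t.2.2 fullM) t.2.2) = true := by
  decide +kernel

lemma fullM_ok : ((List.range 361).all fun c => (fullM.testBit c == Nat.blt (c / 19) (c % 19))) =
    true := by
  decide +kernel

lemma fullM_lt : Nat.blt fullM (2 ^ 361) = true := by decide +kernel

/-- a mask is a triangulation -/
def triB (M : ℕ) : Bool :=
  Nat.beq (Nat.land M fullM) M &&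
    cmL.all fun t => tb M (code t.1 t.2.1) == Nat.beq (Nat.land t.2.2 M) 0

lemma path_tri : (pathL.all triB) = true := by decide +kernel

def memB (M i j : ℕ) : Bool :=
  cond (Nat.blt i j) (tb M (code i j)) (cond (Nat.blt j i) (tb M (code j i)) false)

/-- no two removed edges are in a common triangle -/
def stepB (M M' : ℕ) : Bool :=
  (List.range 19).all fun j => (List.range 19).all fun i =>
    cond (memB M i j && !(memB M' i j))
      ((List.range 19).all fun k =>
        cond (Nat.beq i k) true
          (!(memB M j k && !(memB M' j k) && memB M i k)))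
      true

def stepsB : List ℕ → Bool
  | [] => true
  | [_] => true
  | a :: b :: l => stepB a b && stepsB (b :: l)

lemma path_steps : stepsB pathL = true := by decide +kernel

lemma path_len : pathL.length = 11 := by decide +kernel

/-- common edges -/
lemma c0_ok : Nat.beq (Nat.land (pathL.getD 0 0) (pathL.getD 10 0)) c0M = true := by decide +kernel

/-- L1 -/
lemma fact1 : (cmL.all fun t => tb c0M (code t.1 t.2.1) || alB t.1 t.2.1 ||
    !(Nat.beq (Nat.land t.2.2 c0M) 0)) = true := by
  decide +kernel

/-- L2 -/
lemma fact2 : (cmL.all fun t => !(alB t.1 t.2.1) || Nat.beq (Nat.land t.2.2 c0M) 0) = true := by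
  decide +kernel

/-- L3 -/
lemma fact3 : (cmL.all fun t => !(alB t.1 t.2.1) || cmL.all fun u => !(alB u.1 u.2.1) ||
    (tb t.2.2 (code u.1 u.2.1) == interB t.1 t.2.1 u.1 u.2.1)) = true := by
  decide +kernel

def sideB (a b : ℕ) : Bool := (Nat.beq b (a + 1) && Nat.blt b 18) || (Nat.beq a 0 && Nat.beq b 17)

/-- the sides are common edges -/
lemma fact0 : ((List.range 18).all fun a => (List.range 18).all fun b =>
    !(sideB a b) || tb c0M (code a b)) = true := by
  decide +kernel

/-- L4: the triangles are empty -/
lemma fact4 : ((List.range 18).all fun a => (List.range 18).all fun b =>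
    cond (Nat.blt a b && (sideB a b || alB a b))
      ((List.range 18).all fun c =>
        cond (Nat.blt b c && (sideB b c || alB b c) && (sideB a c || alB a c))
          ((List.range 19).all fun k =>
            Nat.beq k a || Nat.beq k b || Nat.beq k c ||
              Bool.xor (orB a b c) (orB a b k) || Bool.xor (orB a b c) (orB b c k) ||
                Bool.xor (orB a b c) (orB c a k)) true) true) = true := by
  decide +kernel

end Pool.Agent.N386.HF
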