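import Mathlib

/-!
# Triangulations of finite planar point sets and parallel flips

Definitions for the question whether shortest parallel-flip paths can preserve all common edges
(problem MP_797cb5_co).
-/

namespace Pool.Agent.N386.HF

/-- The plane. -/
abbrev Plane := ℝ × ℝ

/-- The closed straight segment spanned by an unordered pair of points. -/
def seg (e : Sym2 Plane) : Set Plane := convexHull ℝ {x | x ∈ e}

/-- Two segments cross if they meet at a point that is not an endpoint of either. -/
def Cross (e f : Sym2 Plane) : Prop := ∃ x, x ∈ seg e ∧ x ∈ seg f ∧ x ∉ e ∧ x ∉ f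

/-- `e` is a segment whose two endpoints are different points of `S`, and no other point of `S`
lies on it. -/
def IsEdge (S : Finset Plane) (e : Sym2 Plane) : Prop :=
  ¬ e.IsDiag ∧ (∀ x ∈ e, x ∈ S) ∧ ∀ x ∈ S, x ∈ seg e → x ∈ e

/-- A set of pairwise non-crossing segments, each with both endpoints in `S` and no other point
of `S` on it. -/
def IsPlane (S : Finset Plane) (T : Set (Sym2 Plane)) : Prop :=
  (∀ e ∈ T, IsEdge S e) ∧ ∀ e ∈ T, ∀ f ∈ T, e ≠ f → ¬ Cross e f

/-- A triangulation of `S`: a maximal set of pairwise non-crossing segments, each with both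
endpoints in `S` and no other point of `S` on it. -/
def IsTriangulation (S : Finset Plane) (T : Set (Sym2 Plane)) : Prop := Maximal (IsPlane S) T

/-- `a b c` are the corners of a triangle of `T`: the three sides are edges of `T`, and the closed
triangle contains no further point of `S`. -/
def IsTriangle (S : Finset Plane) (T : Set (Sym2 Plane)) (a b c : Plane) : Prop :=
  s(a, b) ∈ T ∧ s(b, c) ∈ T ∧ s(a, c) ∈ T ∧
    ∀ x ∈ S, x ∈ convexHull ℝ {a, b, c} → x = a ∨ x = b ∨ x = c

/-- `e` and `f` are edges of a common triangle of `T`. -/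
def InCommonTriangle (S : Finset Plane) (T : Set (Sym2 Plane)) (e f : Sym2 Plane) : Prop :=
  ∃ a b c, IsTriangle S T a b c ∧ (e = s(a, b) ∨ e = s(b, c) ∨ e = s(a, c)) ∧
    (f = s(a, b) ∨ f = s(b, c) ∨ f = s(a, c))

/-- One parallel flip turns the triangulation `T` into the triangulation `T'`: it removes a set `E`
of edges of `T`, no two of which are edges of a common triangle of `T`, and adds a set `E'` of
edges. -/
def ParallelFlip (S : Finset Plane) (T T' : Set (Sym2 Plane)) : Prop :=
  ∃ E E' : Set (Sym2 Plane), E ⊆ T ∧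
    (∀ e ∈ E, ∀ f ∈ E, e ≠ f → ¬ InCommonTriangle S T e f) ∧
    T' = (T \ E) ∪ E' ∧ IsTriangulation S T'

/-- `P 0, ..., P l` is a path of length `l` of parallel flips from `T` to `T'`. -/
def IsPath (S : Finset Plane) (T T' : Set (Sym2 Plane)) (l : ℕ) (P : ℕ → Set (Sym2 Plane)) :
    Prop :=
  P 0 = T ∧ P l = T' ∧ (∀ i ≤ l, IsTriangulation S (P i)) ∧
    ∀ i < l, ParallelFlip S (P i) (P (i + 1))

/-- A path of smallest length. -/
def IsShortestPath (S : Finset Plane) (T T' : Set (Sym2 Plane)) (l : ℕ)
    (P : ℕ → Set (Sym2 Plane)) : Prop :=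
  IsPath S T T' l P ∧ ∀ l' P', IsPath S T T' l' P' → l ≤ l'

end Pool.Agent.N386.HF
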