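import Pool.Agent.N386.HF.Abs

/-!
Enumeration of the results of a parallel flip, and its soundness.
-/

set_option exponentiation.threshold 1000

namespace Pool.Agent.N386.HF

def alB (a b : ℕ) : Bool :=
  Nat.blt (a + 1) b && Nat.blt b 18 && !(Nat.beq a 0 && Nat.beq b 17) &&
    !(Nat.ble 1 a && Nat.ble b 8) && !(Nat.ble 9 a && Nat.ble b 16)

lemma alB_iff {a b : ℕ} : alB a b = true ↔ Al a b := by
  have h1 : ∀ x y : Bool, (!(x && y)) = true ↔ ¬(x = true ∧ y = true) := by decide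
  unfold alB Al
  rw [Bool.and_eq_true, Bool.and_eq_true, Bool.and_eq_true, Bool.and_eq_true, h1, h1, h1,
    Nat.blt_eq, Nat.blt_eq, Nat.beq_eq, Nat.beq_eq, Nat.ble_eq, Nat.ble_eq, Nat.ble_eq, Nat.ble_eq]
  simp only [and_assoc]

/-- the `n`-th bit, in a form which evaluates fast -/
def tb (M n : ℕ) : Bool := Nat.beq (Nat.land 1 (Nat.shiftRight M n)) 1

lemma tb_eq (M n : ℕ) : tb M n = M.testBit n := by
  have h : ∀ x : ℕ, Nat.beq (Nat.land 1 x) 1 = (Nat.land 1 x != 0) := by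
    intro x
    have : Nat.land 1 x = x % 2 := Nat.one_and_eq_mod_two x
    rw [this]
    rcases Nat.mod_two_eq_zero_or_one x with h | h <;> rw [h] <;> rfl
  unfold tb Nat.testBit
  exact h _

def code (a b : ℕ) : ℕ := 19 * a + b

lemma code_inj {a b c d : ℕ} (hb : b < 19) (hd : d < 19) (h : code a b = code c d) :
    a = c ∧ b = d := by
  unfold code at h
  omega

/-- a quadrilateral `p < q < r < s`; the diagonal `(p, r)` is present if `f`, else `(q, s)` -/
structure Quad where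
  p : ℕ
  q : ℕ
  r : ℕ
  s : ℕ
  f : Bool

def Quad.ea (Q : Quad) : ℕ := if Q.f then Q.p else Q.q
def Quad.eb (Q : Quad) : ℕ := if Q.f then Q.r else Q.s
def Quad.oa (Q : Quad) : ℕ := if Q.f then Q.q else Q.p
def Quad.ob (Q : Quad) : ℕ := if Q.f then Q.s else Q.r

/-- the bit mask `M` represents `D` -/
def Rep (M : ℕ) (D : ℕ → ℕ → Prop) : Prop := ∀ a b, Al a b → (M.testBit (code a b) = true ↔ D a b)

def adjB (M a b : ℕ) : Bool :=
  (Nat.beq b (a + 1) && Nat.blt b 18) || (Nat.beq a 0 && Nat.beq b 17) ||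
    (alB a b && tb M (code a b))

lemma adjB_sound {M : ℕ} {D : ℕ → ℕ → Prop} (h : Rep M D) {a b : ℕ} (hb : adjB M a b = true) :
    Adj D a b := by
  unfold adjB at hb
  simp only [Bool.or_eq_true, Bool.and_eq_true, Nat.beq_eq, Nat.blt_eq, tb_eq] at hb
  rcases hb with (hb | hb) | hb
  · exact Or.inl (Or.inl hb)
  · exact Or.inl (Or.inr hb)
  · have := alB_iff.1 hb.1
    exact Or.inr ⟨this, (h a b this).1 hb.2⟩

def okQ (M : ℕ) (Q : Quad) : Bool :=
  Nat.blt Q.p Q.q && Nat.blt Q.q Q.r && Nat.blt Q.r Q.s && Nat.blt Q.s 18 &&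
    adjB M Q.p Q.q && adjB M Q.q Q.r && adjB M Q.r Q.s && adjB M Q.p Q.s &&
    alB Q.ea Q.eb && tb M (code Q.ea Q.eb)

/-- the diagonal of `R` is a side of `Q` -/
def isSide (Q R : Quad) : Bool :=
  (Nat.beq R.ea Q.p && Nat.beq R.eb Q.q) || (Nat.beq R.ea Q.q && Nat.beq R.eb Q.r) ||
    (Nat.beq R.ea Q.r && Nat.beq R.eb Q.s) || (Nat.beq R.ea Q.p && Nat.beq R.eb Q.s)

def gen : List Quad → List Quad → ℕ → List ℕ
  | [], _, acc => [acc]
  | Q :: Qs, rem, acc =>
    gen Qs rem (Nat.lor acc (Nat.pow 2 (code Q.ea Q.eb))) ++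
      (cond (alB Q.oa Q.ob && rem.all (fun R => !(isSide Q R)))
        (gen Qs (Q :: rem) (Nat.lor acc (Nat.pow 2 (code Q.oa Q.ob)))) [])

/-- a quadrilateral of `D` -/
def OkQ (D : ℕ → ℕ → Prop) (Q : Quad) : Prop :=
  Q.p < Q.q ∧ Q.q < Q.r ∧ Q.r < Q.s ∧ Q.s < 18 ∧ Adj D Q.p Q.q ∧ Adj D Q.q Q.r ∧
    Adj D Q.r Q.s ∧ Adj D Q.p Q.s ∧ Al Q.ea Q.eb ∧ D Q.ea Q.eb

lemma okQ_sound {M : ℕ} {D : ℕ → ℕ → Prop} (h : Rep M D) {Q : Quad} (hQ : okQ M Q = true) :
    OkQ D Q := by
  unfold okQ at hQ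
  simp only [Bool.and_eq_true, Nat.blt_eq, tb_eq] at hQ
  obtain ⟨⟨⟨⟨⟨⟨⟨⟨⟨h1, h2⟩, h3⟩, h4⟩, h5⟩, h6⟩, h7⟩, h8⟩, h9⟩, h10⟩ := hQ
  have h9' := alB_iff.1 h9
  exact ⟨h1, h2, h3, h4, adjB_sound h h5, adjB_sound h h6, adjB_sound h h7, adjB_sound h h8, h9',
    (h _ _ h9').1 h10⟩

lemma side_conf {D D' : ℕ → ℕ → Prop} (st : Step D D') {Q R : Quad} (hQ : OkQ D Q)
    (h1 : Rem D D' Q.ea Q.eb) (h2 : Rem D D' R.ea R.eb) (hs : isSide Q R = true) : False := by
  obtain ⟨g1, g2, g3, g4, a1, a2, a3, a4, g5, g6⟩ := hQ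
  unfold isSide at hs
  simp only [Bool.or_eq_true, Bool.and_eq_true, Nat.beq_eq] at hs
  obtain ⟨p, q, r, s, f⟩ := Q
  simp only at g1 g2 g3 g4 a1 a2 a3 a4 hs
  cases f
  · simp only [Quad.ea, Quad.eb, Bool.false_eq_true, if_false] at h1 g5 g6
    have ae : Adj D q s := Or.inr ⟨g5, g6⟩
    have s1 := st q r s g2 g3 g4 a2 a3 ae
    have s2 := st p q s g1 (by omega) g4 a1 ae a4
    rcases hs with ((hs | hs) | hs) | hs <;> rw [hs.1, hs.2] at h2
    · exact s2.1 ⟨h2, h1⟩
    · exact s1.2.1 ⟨h2, h1⟩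
    · exact s1.2.2 ⟨h2, h1⟩
    · exact s2.2.2 ⟨h1, h2⟩
  · simp only [Quad.ea, Quad.eb, if_true] at h1 g5 g6
    have ae : Adj D p r := Or.inr ⟨g5, g6⟩
    have s1 := st p q r g1 g2 (by omega) a1 a2 ae
    have s2 := st p r s (by omega) g3 g4 ae a3 a4
    rcases hs with ((hs | hs) | hs) | hs <;> rw [hs.1, hs.2] at h2
    · exact s1.2.1 ⟨h2, h1⟩
    · exact s1.2.2 ⟨h2, h1⟩
    · exact s2.1 ⟨h1, h2⟩
    · exact s2.2.1 ⟨h1, h2⟩

lemma flipQ {D D' : ℕ → ℕ → Prop} (h' : Good D') (st : Step D D') {Q : Quad} (hQ : OkQ D Q)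
    (h1 : Rem D D' Q.ea Q.eb) : Al Q.oa Q.ob ∧ D' Q.oa Q.ob := by
  obtain ⟨g1, g2, g3, g4, a1, a2, a3, a4, g5, g6⟩ := hQ
  obtain ⟨p, q, r, s, f⟩ := Q
  cases f
  · simp only [Quad.ea, Quad.eb, Quad.oa, Quad.ob, Bool.false_eq_true, if_false] at *
    exact (flipB h' st g1 g2 g3 g4 a1 a2 a3 a4 h1).2
  · simp only [Quad.ea, Quad.eb, Quad.oa, Quad.ob, if_true] at *
    exact (flipA h' st g1 g2 g3 g4 a1 a2 a3 a4 h1).2

/-- all set bits of `M` at allowed diagonals belong to `D` -/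
def Sub (M : ℕ) (D : ℕ → ℕ → Prop) : Prop := ∀ a b, Al a b → M.testBit (code a b) = true → D a b

lemma sub_or {M : ℕ} {D : ℕ → ℕ → Prop} (h : Sub M D) {c d : ℕ} (hc : Al c d) (hD : D c d) :
    Sub (M ||| 2 ^ code c d) D := by
  intro a b hab hbit
  rw [Nat.testBit_or, Bool.or_eq_true] at hbit
  rcases hbit with hbit | hbit
  · exact h a b hab hbit
  · rw [Nat.testBit_two_pow] at hbit
    have := of_decide_eq_true hbit
    have h1 := hab.2.1
    have h2 := hc.2.1
    obtain ⟨rfl, rfl⟩ := code_inj (by omega) (by omega) this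
    exact hD

theorem gen_sound {D D' : ℕ → ℕ → Prop} (h' : Good D') (st : Step D D') :
    ∀ (Qs rem : List Quad) (acc : ℕ), (∀ Q ∈ Qs, OkQ D Q) →
      (∀ R ∈ rem, Rem D D' R.ea R.eb) → Sub acc D' → ∃ M ∈ gen Qs rem acc, Sub M D' := by
  intro Qs
  induction Qs with
  | nil =>
    intro rem acc _ _ hs
    exact ⟨acc, by simp [gen], hs⟩
  | cons Q Qs ih =>
    intro rem acc hQ hrem hs
    have hQ0 := hQ Q (by simp)
    have hQs : ∀ R ∈ Qs, OkQ D R := fun R hR => hQ R (by simp [hR])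
    have hal : Al Q.ea Q.eb := hQ0.2.2.2.2.2.2.2.2.1
    have hDe : D Q.ea Q.eb := hQ0.2.2.2.2.2.2.2.2.2
    by_cases he : D' Q.ea Q.eb
    · obtain ⟨M, hM1, hM2⟩ := ih rem _ hQs hrem (sub_or hs hal he)
      exact ⟨M, by rw [gen]; exact List.mem_append_left _ hM1, hM2⟩
    · have hr : Rem D D' Q.ea Q.eb := ⟨hal, hDe, he⟩
      obtain ⟨ho, hDo⟩ := flipQ h' st hQ0 hr
      obtain ⟨M, hM1, hM2⟩ := ih (Q :: rem) _ hQs (by
        intro R hR
        rcases List.mem_cons.1 hR with rfl | hR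
        · exact hr
        · exact hrem R hR) (sub_or hs ho hDo)
      refine ⟨M, ?_, hM2⟩
      rw [gen]
      apply List.mem_append_right
      have hcond : (alB Q.oa Q.ob && rem.all (fun R => !(isSide Q R))) = true := by
        rw [Bool.and_eq_true, List.all_eq_true]
        refine ⟨alB_iff.2 ho, ?_⟩
        intro R hR
        by_contra hcon
        simp only [Bool.not_eq_true, Bool.not_eq_false'] at hcon
        exact side_conf st hQ0 hr (hrem R hR) hcon
      rw [hcond]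
      exact hM1

/-- `M` is maximal: every allowed diagonal which is not in `M` crosses one in `M`. The list `L`
consists of the allowed diagonals with the masks of the allowed diagonals crossing them. -/
def maxB (L : List (ℕ × ℕ × ℕ)) (M : ℕ) : Bool :=
  L.all fun t => tb M (code t.1 t.2.1) || !(Nat.beq (Nat.land M t.2.2) 0)

def interB (a b c d : ℕ) : Bool :=
  (Nat.blt a c && Nat.blt c b && Nat.blt b d) || (Nat.blt c a && Nat.blt a d && Nat.blt d b)

lemma interB_iff {a b c d : ℕ} : interB a b c d = true ↔ Inter a b c d := by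
  unfold interB Inter
  simp only [Bool.or_eq_true, Bool.and_eq_true, Nat.blt_eq, and_assoc]

/-- correctness of the list `L` -/
def listB (L : List (ℕ × ℕ × ℕ)) : Bool :=
  ((List.range 18).all fun a => (List.range 18).all fun b =>
    !(alB a b) || L.any fun t => t.1 == a && t.2.1 == b) &&
  L.all fun t => (List.range 361).all fun c =>
    !(t.2.2.testBit c) || (alB (c / 19) (c % 19) && interB t.1 t.2.1 (c / 19) (c % 19))

lemma rep_of_sub {L : List (ℕ × ℕ × ℕ)} (hL : listB L = true)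
    (hL2 : ∀ t ∈ L, t.2.2 < 2 ^ 361) {M : ℕ} (hM : maxB L M = true)
    {D : ℕ → ℕ → Prop} (hD : Good D) (hs : Sub M D) : Rep M D := by
  intro a b hab
  refine ⟨hs a b hab, ?_⟩
  intro hDab
  unfold listB at hL
  rw [Bool.and_eq_true, List.all_eq_true, List.all_eq_true] at hL
  obtain ⟨h1, h2⟩ := hL
  have hb := hab.2.1
  have ha := hab.1
  have h3 := h1 a (List.mem_range.2 (by omega))
  rw [List.all_eq_true] at h3
  have h4 := h3 b (List.mem_range.2 hb)
  rw [Bool.or_eq_true, Bool.not_eq_true'] at h4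
  rcases h4 with h4 | h4
  · rw [alB_iff.2 hab] at h4; exact absurd h4 (by simp)
  · rw [List.any_eq_true] at h4
    obtain ⟨⟨a', b', m⟩, ht, hab'⟩ := h4
    simp only [Bool.and_eq_true, beq_iff_eq] at hab'
    obtain ⟨rfl, rfl⟩ := hab'
    unfold maxB at hM
    rw [List.all_eq_true] at hM
    have h5 := hM _ ht
    rw [Bool.or_eq_true, tb_eq] at h5
    rcases h5 with h5 | h5
    · exact h5
    · exfalso
      have h5 : M &&& m ≠ 0 := by
        intro h0
        have h0' : Nat.land M m = 0 := h0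
        rw [h0'] at h5
        exact absurd h5 (by decide)
      obtain ⟨c, hc⟩ := Nat.exists_testBit_of_ne_zero h5
      rw [Nat.testBit_and, Bool.and_eq_true] at hc
      obtain ⟨hc1, hc2⟩ := hc
      have hlt : c < 361 := by
        by_contra hge
        push Not at hge
        have := hL2 _ ht
        simp only at this
        have h6 : m < 2 ^ c := lt_of_lt_of_le this (Nat.pow_le_pow_right (by norm_num) hge)
        rw [Nat.testBit_lt_two_pow h6] at hc2
        exact absurd hc2 (by simp)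
      have h7 := h2 _ ht
      rw [List.all_eq_true] at h7
      have h8 := h7 c (List.mem_range.2 hlt)
      simp only [hc2, Bool.not_true, Bool.false_or, Bool.and_eq_true] at h8
      obtain ⟨h9, h10⟩ := h8
      have h9' := alB_iff.1 h9
      have h10' := interB_iff.1 h10
      have hcode : code (c / 19) (c % 19) = c := by unfold code; omega
      have := hs _ _ h9' (by rw [hcode]; exact hc1)
      exact hD.nc _ _ _ _ hab h9' h10' hDab this

/-- decode a quadrilateral -/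
def dec (n : ℕ) : Quad :=
  ⟨n % 32, n / 32 % 32, n / 1024 % 32, n / 32768 % 32, Nat.beq (n / 1048576) 1⟩

/-- search trees of states: mask, depth, quadrilaterals -/
inductive Tr : Type
  | leaf : Tr
  | node (l : Tr) (m d : ℕ) (qs : List ℕ) (r : Tr) : Tr

/-- the tree contains the mask `m` with depth `d` and quadrilaterals `qs` -/
def Tr.Mem : Tr → ℕ → ℕ → List ℕ → Prop
  | .leaf, _, _, _ => False
  | .node l m d qs r, m', d', qs' => l.Mem m' d' qs' ∨ (m' = m ∧ d' = d ∧ qs' = qs) ∨ r.Mem m' d' qs'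

def Tr.all : Tr → (ℕ → ℕ → List ℕ → Bool) → Bool
  | .leaf, _ => true
  | .node l m d qs r, f => f m d qs && l.all f && r.all f

lemma Tr.all_sound {f : ℕ → ℕ → List ℕ → Bool} : ∀ {t : Tr}, t.all f = true → ∀ {m d qs},
    t.Mem m d qs → f m d qs = true
  | .leaf, _, _, _, _, h => h.elim
  | .node l m d qs r, h, m', d', qs', hm => by
    rw [Tr.all, Bool.and_eq_true, Bool.and_eq_true] at h
    rcases hm with hm | ⟨rfl, rfl, rfl⟩ | hm
    · exact Tr.all_sound h.1.2 hm
    · exact h.1.1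
    · exact Tr.all_sound h.2 hm

/-- search for the mask `x` with depth at most `k` -/
def Tr.look : Tr → ℕ → ℕ → Bool
  | .leaf, _, _ => false
  | .node l m d _ r, x, k =>
    cond (Nat.beq x m) (Nat.ble d k) (cond (Nat.ble x m) (l.look x k) (r.look x k))

lemma Tr.look_sound {x k : ℕ} : ∀ {t : Tr}, t.look x k = true → ∃ d qs, t.Mem x d qs ∧ d ≤ k
  | .leaf, h => by simp [Tr.look] at h
  | .node l m d qs r, h => by
    rw [Tr.look] at h
    cases h1 : Nat.beq x m
    · rw [h1] at h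
      cases h2 : Nat.ble x m
      · rw [h2] at h
        obtain ⟨d', qs', h3, h4⟩ := Tr.look_sound (t := r) h
        exact ⟨d', qs', Or.inr (Or.inr h3), h4⟩
      · rw [h2] at h
        obtain ⟨d', qs', h3, h4⟩ := Tr.look_sound (t := l) h
        exact ⟨d', qs', Or.inl h3, h4⟩
    · rw [h1] at h
      rw [Nat.beq_eq] at h1
      exact ⟨d, qs, Or.inr (Or.inl ⟨h1, rfl, rfl⟩), Nat.le_of_ble_eq_true h⟩

/-- the tree of states is closed under parallel flips up to depth `k` -/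
def closedB (L : List (ℕ × ℕ × ℕ)) (k : ℕ) (root : Tr) : Bool :=
  root.all fun m d qs => maxB L m && (Nat.ble k d || ((qs.map dec).all (okQ m) &&
    (gen (qs.map dec) [] 0).all fun x => root.look x (d + 1)))

theorem closed_step {L : List (ℕ × ℕ × ℕ)} (hL : listB L = true)
    (hL2 : ∀ t ∈ L, t.2.2 < 2 ^ 361) {k : ℕ} {root : Tr} (hc : closedB L k root = true)
    {D D' : ℕ → ℕ → Prop} (h' : Good D') (st : Step D D') {m d : ℕ} {qs : List ℕ}
    (hs : root.Mem m d qs) (hrep : Rep m D) (hd : d < k) :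
    ∃ m' d' qs', root.Mem m' d' qs' ∧ Rep m' D' ∧ d' ≤ d + 1 := by
  unfold closedB at hc
  have h1 := Tr.all_sound hc hs
  rw [Bool.and_eq_true, Bool.or_eq_true] at h1
  rcases h1.2 with h2 | h2
  · rw [Nat.ble_eq] at h2; omega
  · rw [Bool.and_eq_true, List.all_eq_true, List.all_eq_true] at h2
    obtain ⟨M, hM1, hM2⟩ := gen_sound h' st (qs.map dec) [] 0
      (fun Q hQ => okQ_sound hrep (h2.1 Q hQ)) (by simp) (by intro a b _ hb; simp at hb)
    obtain ⟨d', qs', h3, h4⟩ := Tr.look_sound (h2.2 M hM1)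
    have h5 := Tr.all_sound hc h3
    rw [Bool.and_eq_true] at h5
    exact ⟨M, d', qs', h3, rep_of_sub hL hL2 h5.1 h' hM2, h4⟩

end Pool.Agent.N386.HF
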