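import Pool.Agent.N386.HF.Def

namespace Pool.Agent.N386.HF

lemma seg_mk (a b : Plane) : seg s(a, b) = segment ℝ a b := by
  unfold seg
  rw [← convexHull_pair]
  congr 1
  ext x
  simp [Sym2.mem_iff]

/-- twice the signed area -/
def det (a b c : Plane) : ℝ := (b.1 - a.1) * (c.2 - a.2) - (b.2 - a.2) * (c.1 - a.1)

lemma det_comb (a b x y : Plane) (s t : ℝ) (h : s + t = 1) :
    det a b (s • x + t • y) = s * det a b x + t * det a b y := by
  have hs : s = 1 - t := by linarith
  subst hs
  simp only [det, Prod.fst_add, Prod.snd_add, Prod.smul_fst, Prod.smul_snd, smul_eq_mul]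
  ring

lemma det_self_left (a b : Plane) : det a b a = 0 := by simp [det]
lemma det_self_right (a b : Plane) : det a b b = 0 := by simp only [det]; ring

lemma det_mem {a b x : Plane} (h : x ∈ segment ℝ a b) : det a b x = 0 := by
  obtain ⟨s, t, hs, ht, hst, rfl⟩ := h
  rw [det_comb _ _ _ _ _ _ hst, det_self_left, det_self_right]; ring

lemma sign_of_mem {a b c d x : Plane} (h1 : det a b c ≠ 0) (h2 : det a b d ≠ 0)
    (hx : det a b x = 0) (hxs : x ∈ segment ℝ c d) : det a b c * det a b d < 0 := by
  obtain ⟨s, t, hs, ht, hst, rfl⟩ := hxs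
  rw [det_comb _ _ _ _ _ _ hst] at hx
  by_contra hcon
  push Not at hcon
  have hpos : 0 < det a b c * det a b d := lt_of_le_of_ne hcon (by
    intro h; exact (mul_ne_zero h1 h2) h.symm)
  rcases lt_or_gt_of_ne h1 with hc | hc
  · have hd : det a b d < 0 := by
      by_contra hd; push Not at hd
      nlinarith
    rcases eq_or_lt_of_le hs with h0 | h0
    · have : t = 1 := by linarith
      subst this; rw [← h0] at hx; linarith
    · nlinarith [mul_nonneg ht (le_of_lt (neg_pos.mpr hd)), mul_pos h0 (neg_pos.mpr hc)]
  · have hd : 0 < det a b d := by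
      by_contra hd; push Not at hd
      nlinarith
    rcases eq_or_lt_of_le hs with h0 | h0
    · have : t = 1 := by linarith
      subst this; rw [← h0] at hx; linarith
    · nlinarith [mul_nonneg ht (le_of_lt hd), mul_pos h0 hc]

/-- proper crossing of two segments -/
lemma cross_of_signs {a b c d : Plane} (h1 : det a b c * det a b d < 0)
    (h2 : det c d a * det c d b < 0) : Cross s(a, b) s(c, d) := by
  set D : ℝ := (b.1 - a.1) * (d.2 - c.2) - (b.2 - a.2) * (d.1 - c.1) with hD
  have e1 : det a b d - det a b c = D := by simp only [det, hD]; ring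
  have e2 : det c d a - det c d b = D := by simp only [det, hD]; ring
  have hD0 : D ≠ 0 := by
    intro h
    rw [h] at e1
    have : det a b d = det a b c := by linarith
    rw [this] at h1
    nlinarith [mul_self_nonneg (det a b c)]
  set s : ℝ := -det a b c / D with hs
  set t : ℝ := det c d a / D with ht
  have hs1 : 1 - s = det a b d / D := by rw [hs, eq_div_iff hD0, sub_mul, div_mul_cancel₀ _ hD0]; linarith
  have ht1 : 1 - t = -det c d b / D := by rw [ht, eq_div_iff hD0, sub_mul, div_mul_cancel₀ _ hD0]; linarith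
  have hD2 : 0 < D * D := mul_self_pos.mpr hD0
  have hs0 : 0 ≤ s := by
    have : s * (D * D) = -det a b c * D := by rw [hs]; field_simp
    have h3 : 0 ≤ -det a b c * D := by rw [← e1]; nlinarith [mul_self_nonneg (det a b c)]
    nlinarith
  have hs0' : 0 ≤ 1 - s := by
    have : (1 - s) * (D * D) = det a b d * D := by rw [hs1]; field_simp
    have h3 : 0 ≤ det a b d * D := by rw [← e1]; nlinarith [mul_self_nonneg (det a b d)]
    nlinarith
  have ht0 : 0 ≤ t := by
    have : t * (D * D) = det c d a * D := by rw [ht]; field_simp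
    have h3 : 0 ≤ det c d a * D := by rw [← e2]; nlinarith [mul_self_nonneg (det c d a)]
    nlinarith
  have ht0' : 0 ≤ 1 - t := by
    have : (1 - t) * (D * D) = -det c d b * D := by rw [ht1]; field_simp
    have h3 : 0 ≤ -det c d b * D := by rw [← e2]; nlinarith [mul_self_nonneg (det c d b)]
    nlinarith
  have key : (1 - s) • c + s • d = (1 - t) • a + t • b := by
    have hsD : s * D = -det a b c := by rw [hs]; field_simp
    have htD : t * D = det c d a := by rw [ht]; field_simp
    apply Prod.ext
    · simp only [Prod.fst_add, Prod.smul_fst, smul_eq_mul]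
      have : ((1 - s) * c.1 + s * d.1 - ((1 - t) * a.1 + t * b.1)) * D = 0 := by
        have : ((1 - s) * c.1 + s * d.1 - ((1 - t) * a.1 + t * b.1)) * D =
          (c.1 - a.1) * D + (s * D) * (d.1 - c.1) - (t * D) * (b.1 - a.1) := by ring
        rw [this, hsD, htD]
        simp only [det, hD]; ring
      rcases mul_eq_zero.mp this with h | h
      · linarith
      · exact absurd h hD0
    · simp only [Prod.snd_add, Prod.smul_snd, smul_eq_mul]
      have : ((1 - s) * c.2 + s * d.2 - ((1 - t) * a.2 + t * b.2)) * D = 0 := by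
        have : ((1 - s) * c.2 + s * d.2 - ((1 - t) * a.2 + t * b.2)) * D =
          (c.2 - a.2) * D + (s * D) * (d.2 - c.2) - (t * D) * (b.2 - a.2) := by ring
        rw [this, hsD, htD]
        simp only [det, hD]; ring
      rcases mul_eq_zero.mp this with h | h
      · linarith
      · exact absurd h hD0
  have m1 : (1 - s) • c + s • d ∈ segment ℝ c d := ⟨1 - s, s, hs0', hs0, by ring, rfl⟩
  have m2 : (1 - s) • c + s • d ∈ segment ℝ a b := by
    rw [key]; exact ⟨1 - t, t, ht0', ht0, by ring, rfl⟩
  refine ⟨(1 - s) • c + s • d, by rw [seg_mk]; exact m2, by rw [seg_mk]; exact m1, ?_, ?_⟩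
  · rw [Sym2.mem_iff]
    rintro (h | h)
    · have := det_mem m1
      rw [h] at this; rw [this] at h2; simp at h2
    · have := det_mem m1
      rw [h] at this; rw [this] at h2; simp at h2
  · rw [Sym2.mem_iff]
    rintro (h | h)
    · have := det_mem m2
      rw [h] at this; rw [this] at h1; simp at h1
    · have := det_mem m2
      rw [h] at this; rw [this] at h1; simp at h1

lemma signs_of_cross {a b c d : Plane} (h1 : det a b c ≠ 0) (h2 : det a b d ≠ 0)
    (h3 : det c d a ≠ 0) (h4 : det c d b ≠ 0) (h : Cross s(a, b) s(c, d)) :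
    det a b c * det a b d < 0 ∧ det c d a * det c d b < 0 := by
  obtain ⟨x, hx1, hx2, -, -⟩ := h
  rw [seg_mk] at hx1 hx2
  exact ⟨sign_of_mem h1 h2 (det_mem hx1) hx2, sign_of_mem h3 h4 (det_mem hx2) hx1⟩

lemma not_cross_share {a b d : Plane} (h : det a b d ≠ 0) : ¬ Cross s(a, b) s(a, d) := by
  rintro ⟨x, hx1, hx2, hx3, -⟩
  rw [seg_mk] at hx1 hx2
  have h1 := det_mem hx1
  obtain ⟨s, t, hs, ht, hst, rfl⟩ := hx2
  rw [det_comb _ _ _ _ _ _ hst, det_self_left] at h1
  have ht0 : t = 0 := by
    have : t * det a b d = 0 := by linarith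
    rcases mul_eq_zero.mp this with h' | h'
    · exact h'
    · exact absurd h' h
  subst ht0
  have : s = 1 := by linarith
  subst this
  apply hx3
  simp

lemma cross_comm {e f : Sym2 Plane} : Cross e f ↔ Cross f e := by
  constructor <;> rintro ⟨x, h1, h2, h3, h4⟩ <;> exact ⟨x, h2, h1, h4, h3⟩

lemma convex_half (a b : Plane) (r : ℝ) : Convex ℝ {x : Plane | 0 ≤ r * det a b x} := by
  intro x hx y hy s t hs ht hst
  simp only [Set.mem_ofPred_eq] at *
  rw [det_comb _ _ _ _ _ _ hst]
  nlinarith [mul_nonneg hs hx, mul_nonneg ht hy]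

lemma tri_signs {a b c x : Plane} (h : x ∈ convexHull ℝ {a, b, c}) :
    0 ≤ det a b c * det a b x ∧ 0 ≤ det a b c * det b c x ∧ 0 ≤ det a b c * det c a x := by
  have e1 : det b c a = det a b c := by simp only [det]; ring
  have e2 : det c a b = det a b c := by simp only [det]; ring
  refine ⟨?_, ?_, ?_⟩
  · refine convexHull_min ?_ (convex_half a b (det a b c)) h
    rintro y (rfl | rfl | rfl)
    · simp [det_self_left]
    · simp [det_self_right]
    · exact mul_self_nonneg (det a b y)
  · refine convexHull_min ?_ (convex_half b c (det a b c)) h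
    rintro y (rfl | rfl | rfl)
    · simp only [Set.mem_ofPred_eq]; rw [e1]; exact mul_self_nonneg _
    · simp [det_self_left]
    · simp [det_self_right]
  · refine convexHull_min ?_ (convex_half c a (det a b c)) h
    rintro y (rfl | rfl | rfl)
    · simp [det_self_right]
    · simp only [Set.mem_ofPred_eq]; rw [e2]; exact mul_self_nonneg _
    · simp [det_self_left]

end Pool.Agent.N386.HF
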