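import Pool.Agent.N386.HF.Chk2

/-! The geometry of the 19 points in terms of the tables. -/

set_option exponentiation.threshold 1000

namespace Pool.Agent.N386.HF

lemma all_range {n : ℕ} {f : ℕ → Bool} (h : ((List.range n).all f) = true) {i : ℕ} (hi : i < n) :
    f i = true := by
  rw [List.all_eq_true] at h
  exact h i (List.mem_range.2 hi)

lemma all_mem {α : Type} {l : List α} {f : α → Bool} (h : (l.all f) = true) {x : α} (hx : x ∈ l) :
    f x = true := by
  rw [List.all_eq_true] at h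
  exact h x hx

lemma pt_inj {i j : ℕ} (hi : i < 19) (hj : j < 19) (h : pt i = pt j) : i = j := by
  have h1 := all_range (all_range injB hi) hj
  rw [Bool.or_eq_true, Nat.beq_eq, Bool.not_eq_true', Bool.and_eq_false_iff] at h1
  rcases h1 with h1 | h1
  · exact h1
  · exfalso
    unfold pt at h
    rw [Prod.mk.injEq, Nat.cast_inj, Nat.cast_inj] at h
    rw [h.1, h.2] at h1
    simp [Nat.beq_refl] at h1

lemma det_ne {i j k : ℕ} (hi : i < 19) (hj : j < 19) (hk : k < 19) (h1 : i ≠ j) (h2 : j ≠ k)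
    (h3 : i ≠ k) : det (pt i) (pt j) (pt k) ≠ 0 := by
  have h := all_range (all_range (all_range genposB hi) hj) hk
  have hd : distinct3 i j k = true := by
    unfold distinct3
    simp [h1, h2, h3]
  rw [hd] at h
  have h4 : dn i j k ≠ dp i j k := by simpa using h
  rw [det_pt]
  intro h0
  apply h4
  have : (dp i j k : ℝ) = (dn i j k : ℝ) := by linarith
  exact_mod_cast this.symm

lemma orB_true {i j k : ℕ} (hi : i < 19) (hj : j < 19) (hk : k < 19) :
    orB i j k = true ↔ 0 < det (pt i) (pt j) (pt k) := by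
  have h := all_range (all_range (all_range orB_ok hi) hj) hk
  rw [beq_iff_eq] at h
  rw [h, det_pt]
  unfold ccw
  rw [Nat.blt_eq, sub_pos, Nat.cast_lt]

lemma orB_xor {i j k l : ℕ} (hi : i < 19) (hj : j < 19) (hk : k < 19) (hl : l < 19) (h1 : i ≠ j)
    (h2 : i ≠ k) (h3 : i ≠ l) (h4 : j ≠ k) (h5 : j ≠ l) :
    Bool.xor (orB i j k) (orB i j l) = true ↔
      det (pt i) (pt j) (pt k) * det (pt i) (pt j) (pt l) < 0 := by
  have e1 := det_ne hi hj hk h1 h4 h2
  have e2 := det_ne hi hj hl h1 h5 h3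
  have f1 := orB_true hi hj hk
  have f2 := orB_true hi hj hl
  cases g1 : orB i j k <;> cases g2 : orB i j l <;> rw [g1] at f1 <;> rw [g2] at f2 <;>
    simp only [Bool.false_eq_true, false_iff, true_iff, not_lt] at f1 f2
  · have f1' := lt_of_le_of_ne f1 e1
    have f2' := lt_of_le_of_ne f2 e2
    constructor
    · intro h; simp at h
    · intro h; nlinarith
  · have f1' := lt_of_le_of_ne f1 e1
    constructor
    · intro _; nlinarith
    · intro _; rfl
  · have f2' := lt_of_le_of_ne f2 e2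
    constructor
    · intro _; nlinarith
    · intro _; rfl
  · constructor
    · intro h; simp at h
    · intro h; nlinarith

lemma crossB_iff {i j k l : ℕ} (hij : i < j) (hj : j < 19) (hkl : k < l) (hl : l < 19)
    (hne : ¬(i = k ∧ j = l)) : Cross s(pt i, pt j) s(pt k, pt l) ↔ crossB i j k l = true := by
  by_cases h1 : i = k
  · subst h1
    have : ¬ Cross s(pt i, pt j) s(pt i, pt l) :=
      not_cross_share (det_ne (by omega) hj hl (by omega) (by omega) (by omega))
    simp [this, crossB, Nat.beq_refl]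
  by_cases h2 : i = l
  · subst h2
    have : ¬ Cross s(pt i, pt j) s(pt k, pt i) := by
      rw [show s(pt k, pt i) = s(pt i, pt k) from Sym2.eq_swap]
      exact not_cross_share (det_ne (by omega) hj (by omega) (by omega) (by omega) (by omega))
    simp [this, crossB, Nat.beq_refl]
  by_cases h3 : j = k
  · subst h3
    have : ¬ Cross s(pt i, pt j) s(pt j, pt l) := by
      rw [show s(pt i, pt j) = s(pt j, pt i) from Sym2.eq_swap]
      exact not_cross_share (det_ne (by omega) (by omega) (by omega) (by omega) (by omega)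
        (by omega))
    simp [this, crossB, Nat.beq_refl]
  by_cases h4 : j = l
  · subst h4
    have : ¬ Cross s(pt i, pt j) s(pt k, pt j) := by
      rw [show s(pt i, pt j) = s(pt j, pt i) from Sym2.eq_swap,
        show s(pt k, pt j) = s(pt j, pt k) from Sym2.eq_swap]
      exact not_cross_share (det_ne (by omega) (by omega) (by omega) (by omega) (by omega)
        (by omega))
    simp [this, crossB, Nat.beq_refl]
  have b1 : Nat.beq i k = false := by
    by_contra h; rw [Bool.not_eq_false, Nat.beq_eq] at h; exact h1 h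
  have b2 : Nat.beq i l = false := by
    by_contra h; rw [Bool.not_eq_false, Nat.beq_eq] at h; exact h2 h
  have b3 : Nat.beq j k = false := by
    by_contra h; rw [Bool.not_eq_false, Nat.beq_eq] at h; exact h3 h
  have b4 : Nat.beq j l = false := by
    by_contra h; rw [Bool.not_eq_false, Nat.beq_eq] at h; exact h4 h
  unfold crossB
  rw [b1, b2, b3, b4]
  rw [Bool.and_eq_true, Bool.and_eq_true,
    orB_xor (show i < 19 by omega) hj (show k < 19 by omega) hl (by omega) h1 h2 h3 h4,
    orB_xor (show k < 19 by omega) hl (show i < 19 by omega) hj (by omega) (Ne.symm h1)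
      (Ne.symm h3) (Ne.symm h2) (Ne.symm h4)]
  constructor
  · intro h
    have := signs_of_cross
      (det_ne (show i < 19 by omega) hj (show k < 19 by omega) (by omega) h3 h1)
      (det_ne (show i < 19 by omega) hj hl (by omega) h4 h2)
      (det_ne (show k < 19 by omega) hl (show i < 19 by omega) (by omega) (Ne.symm h2)
        (Ne.symm h1))
      (det_ne (show k < 19 by omega) hl hj (by omega) (Ne.symm h4) (Ne.symm h3)) h
    exact ⟨⟨rfl, this.1⟩, this.2⟩
  · rintro ⟨⟨-, h5⟩, h6⟩
    exact cross_of_signs h5 h6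

/-- the point set -/
noncomputable def S : Finset Plane := (Finset.range 19).image pt

lemma mem_S {x : Plane} : x ∈ S ↔ ∃ i, i < 19 ∧ x = pt i := by
  unfold S
  rw [Finset.mem_image]
  constructor
  · rintro ⟨i, hi, rfl⟩
    exact ⟨i, Finset.mem_range.1 hi, rfl⟩
  · rintro ⟨i, hi, rfl⟩
    exact ⟨i, Finset.mem_range.2 hi, rfl⟩

lemma card_S : S.card = 19 := by
  unfold S
  rw [Finset.card_image_of_injOn, Finset.card_range]
  intro i hi j hj h
  rw [Finset.coe_range, Set.mem_Iio] at hi hj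
  exact pt_inj hi hj h

lemma pt_ne {i j : ℕ} (hi : i < 19) (hj : j < 19) (h : i ≠ j) : pt i ≠ pt j :=
  fun h' => h (pt_inj hi hj h')

lemma isEdge_pt {i j : ℕ} (hij : i < j) (hj : j < 19) : IsEdge S s(pt i, pt j) := by
  refine ⟨?_, ?_, ?_⟩
  · rw [Sym2.mk_isDiag_iff]
    exact pt_ne (by omega) hj (by omega)
  · intro x hx
    rw [Sym2.mem_iff] at hx
    rcases hx with rfl | rfl
    · exact mem_S.2 ⟨i, by omega, rfl⟩
    · exact mem_S.2 ⟨j, hj, rfl⟩
  · intro x hx hxs
    obtain ⟨k, hk, rfl⟩ := mem_S.1 hx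
    rw [seg_mk] at hxs
    rw [Sym2.mem_iff]
    by_cases h1 : k = i
    · left; rw [h1]
    by_cases h2 : k = j
    · right; rw [h2]
    exact absurd (det_mem hxs) (det_ne (by omega) hj hk (by omega) (by omega) (by omega))

lemma edge_pt {e : Sym2 Plane} (h : IsEdge S e) : ∃ i j, i < j ∧ j < 19 ∧ e = s(pt i, pt j) := by
  induction e using Sym2.ind with
  | _ x y =>
    obtain ⟨h1, h2, -⟩ := h
    rw [Sym2.mk_isDiag_iff] at h1
    obtain ⟨i, hi, rfl⟩ := mem_S.1 (h2 x (by simp))
    obtain ⟨j, hj, rfl⟩ := mem_S.1 (h2 y (by simp))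
    rcases lt_trichotomy i j with h3 | h3 | h3
    · exact ⟨i, j, h3, hj, rfl⟩
    · subst h3; exact absurd rfl h1
    · exact ⟨j, i, h3, hi, Sym2.eq_swap⟩

lemma sym_inj {i j k l : ℕ} (hij : i < j) (hj : j < 19) (hkl : k < l) (hl : l < 19)
    (h : s(pt i, pt j) = s(pt k, pt l)) : i = k ∧ j = l := by
  rw [Sym2.eq_iff] at h
  rcases h with ⟨h1, h2⟩ | ⟨h1, h2⟩
  · exact ⟨pt_inj (by omega) (by omega) h1, pt_inj hj hl h2⟩
  · have := pt_inj (by omega) hl h1
    have := pt_inj hj (by omega) h2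
    omega

/-- the set of segments with mask `M` -/
def TS (M : ℕ) : Set (Sym2 Plane) :=
  {e | ∃ i j, i < j ∧ j < 19 ∧ M.testBit (code i j) = true ∧ e = s(pt i, pt j)}

lemma mem_TS {M i j : ℕ} (hij : i < j) (hj : j < 19) :
    s(pt i, pt j) ∈ TS M ↔ M.testBit (code i j) = true := by
  constructor
  · rintro ⟨k, l, hkl, hl, h1, h2⟩
    obtain ⟨rfl, rfl⟩ := sym_inj hij hj hkl hl h2
    exact h1
  · intro h
    exact ⟨i, j, hij, hj, h, rfl⟩

lemma mem_TS_memB {M i j : ℕ} (hi : i < 19) (hj : j < 19) (hne : i ≠ j) :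
    s(pt i, pt j) ∈ TS M ↔ memB M i j = true := by
  rcases lt_or_gt_of_ne hne with h | h
  · rw [mem_TS h hj, ← tb_eq]
    have h1 : Nat.blt i j = true := by rw [Nat.blt_eq]; exact h
    unfold memB
    rw [h1]
    rfl
  · rw [show s(pt i, pt j) = s(pt j, pt i) from Sym2.eq_swap, mem_TS h hi, ← tb_eq]
    have h1 : Nat.blt i j = false := by
      by_contra hc; rw [Bool.not_eq_false, Nat.blt_eq] at hc; omega
    have h2 : Nat.blt j i = true := by rw [Nat.blt_eq]; exact h
    unfold memB
    rw [h1, h2]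
    rfl

lemma table {i j : ℕ} (hij : i < j) (hj : j < 19) : ∃ m, (i, j, m) ∈ cmL := by
  have h := all_range (all_range cmL_complete (show i < 19 by omega)) hj
  rw [Bool.or_eq_true, Bool.not_eq_true'] at h
  rcases h with h | h
  · have : Nat.blt i j = true := by rw [Nat.blt_eq]; exact hij
    rw [this] at h; exact absurd h (by simp)
  · rw [List.any_eq_true] at h
    obtain ⟨⟨a, b, m⟩, ht, hab⟩ := h
    rw [Bool.and_eq_true, Nat.beq_eq, Nat.beq_eq] at hab
    obtain ⟨rfl, rfl⟩ := hab
    exact ⟨m, ht⟩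

lemma table_bit {i j m k l : ℕ} (h : (i, j, m) ∈ cmL) (hkl : k < l) (hl : l < 19) :
    m.testBit (code k l) = crossB i j k l := by
  obtain ⟨m', h'⟩ := table hkl hl
  have := all_mem (all_mem cmL_cross h) h'
  rw [beq_iff_eq, tb_eq] at this
  exact this

lemma table_self {i j m : ℕ} (h : (i, j, m) ∈ cmL) : m.testBit (code i j) = false := by
  have h1 := all_mem cmL_sound h
  rw [Bool.and_eq_true, Nat.blt_eq, Nat.blt_eq] at h1
  rw [table_bit h h1.1 h1.2]
  unfold crossB
  simp [Nat.beq_refl]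

lemma fullM_bit {c : ℕ} (h : fullM.testBit c = true) : c / 19 < c % 19 := by
  have hlt : c < 361 := by
    by_contra hge
    push Not at hge
    have h1 := fullM_lt
    rw [Nat.blt_eq] at h1
    have h6 : fullM < 2 ^ c := lt_of_lt_of_le h1 (Nat.pow_le_pow_right (by norm_num) hge)
    rw [Nat.testBit_lt_two_pow h6] at h
    exact absurd h (by simp)
  have h2 := all_range fullM_ok hlt
  rw [beq_iff_eq, h] at h2
  have h3 : Nat.blt (c / 19) (c % 19) = true := h2.symm
  rwa [Nat.blt_eq] at h3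

/-- masks which meet have a common pair -/
lemma land_ne {M m : ℕ} (hm : Nat.beq (Nat.land m fullM) m = true)
    (h : Nat.beq (Nat.land m M) 0 = false) :
    ∃ k l, k < l ∧ l < 19 ∧ m.testBit (code k l) = true ∧ M.testBit (code k l) = true := by
  have h5 : m &&& M ≠ 0 := by
    intro h0
    have h0' : Nat.land m M = 0 := h0
    rw [h0'] at h
    exact absurd h (by decide)
  obtain ⟨c, hc⟩ := Nat.exists_testBit_of_ne_zero h5
  rw [Nat.testBit_and, Bool.and_eq_true] at hc
  obtain ⟨hc1, hc2⟩ := hc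
  rw [Nat.beq_eq] at hm
  have hm' : m &&& fullM = m := hm
  have h6 : fullM.testBit c = true := by
    rw [← hm', Nat.testBit_and, Bool.and_eq_true] at hc1
    exact hc1.2
  have h7 := fullM_bit h6
  have hcode : code (c / 19) (c % 19) = c := by unfold code; omega
  exact ⟨c / 19, c % 19, h7, Nat.mod_lt _ (by norm_num), by rw [hcode]; exact hc1,
    by rw [hcode]; exact hc2⟩

lemma land_zero {M m : ℕ} (h : Nat.beq (Nat.land m M) 0 = true) {c : ℕ}
    (h1 : m.testBit c = true) (h2 : M.testBit c = true) : False := by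
  rw [Nat.beq_eq] at h
  have h' : m &&& M = 0 := h
  have : (m &&& M).testBit c = true := by rw [Nat.testBit_and, h1, h2]; rfl
  rw [h'] at this
  simp at this

theorem tri_of_triB {M : ℕ} (h : triB M = true) : IsTriangulation S (TS M) := by
  unfold triB at h
  rw [Bool.and_eq_true] at h
  obtain ⟨-, h⟩ := h
  refine ⟨⟨?_, ?_⟩, ?_⟩
  · rintro e ⟨i, j, hij, hj, -, rfl⟩
    exact isEdge_pt hij hj
  · rintro e ⟨i, j, hij, hj, h1, rfl⟩ f ⟨k, l, hkl, hl, h2, rfl⟩ hne hc
    obtain ⟨m, hm⟩ := table hij hj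
    have h3 := all_mem h hm
    rw [beq_iff_eq, tb_eq, h1] at h3
    have h4 : crossB i j k l = true := (crossB_iff hij hj hkl hl (by
      rintro ⟨rfl, rfl⟩; exact hne rfl)).1 hc
    exact land_zero h3.symm (by rw [table_bit hm hkl hl]; exact h4) h2
  · intro T' hT' hsub e he
    obtain ⟨i, j, hij, hj, rfl⟩ := edge_pt (hT'.1 e he)
    rw [mem_TS hij hj]
    by_contra hcon
    obtain ⟨m, hm⟩ := table hij hj
    have h3 := all_mem h hm
    rw [beq_iff_eq, tb_eq] at h3
    rw [Bool.not_eq_true] at hcon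
    rw [hcon] at h3
    obtain ⟨k, l, hkl, hl, h4, h5⟩ := land_ne (all_mem cmL_full hm) h3.symm
    have h6 : s(pt k, pt l) ∈ T' := hsub ⟨k, l, hkl, hl, h5, rfl⟩
    have hne : ¬(i = k ∧ j = l) := by
      rintro ⟨rfl, rfl⟩
      rw [hcon] at h5
      exact absurd h5 (by simp)
    refine hT'.2 _ he _ h6 ?_ ((crossB_iff hij hj hkl hl hne).2 ?_)
    · intro h7
      exact hne (sym_inj hij hj hkl hl h7)
    · rw [← table_bit hm hkl hl]; exact h4

lemma stepB_sound {M M' : ℕ} (h : stepB M M' = true) {i j k : ℕ} (hi : i < 19) (hj : j < 19)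
    (hk : k < 19) (hij : i ≠ j) (hjk : j ≠ k) (hik : i ≠ k) (h1 : s(pt i, pt j) ∈ TS M)
    (h2 : s(pt j, pt k) ∈ TS M) (h3 : s(pt i, pt k) ∈ TS M) (h4 : s(pt i, pt j) ∉ TS M')
    (h5 : s(pt j, pt k) ∉ TS M') : False := by
  rw [mem_TS_memB hi hj hij] at h1 h4
  rw [mem_TS_memB hj hk hjk] at h2 h5
  rw [mem_TS_memB hi hk hik] at h3
  rw [Bool.not_eq_true] at h4 h5
  have h6 := all_range (all_range h hj) hi
  rw [h1, h4] at h6
  have h7 : ((List.range 19).all fun k =>
        cond (Nat.beq i k) true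
          (!(memB M j k && !(memB M' j k) && memB M i k))) = true := h6
  have h8 := all_range h7 hk
  have h9 : Nat.beq i k = false := by
    by_contra hc; rw [Bool.not_eq_false, Nat.beq_eq] at hc; exact hik hc
  rw [h9, h2, h5, h3] at h8
  exact absurd h8 (by decide)

/-- two sides of a triangle of `TS M` are not both removed -/
lemma no_common {M M' : ℕ} (h : stepB M M' = true) {e f : Sym2 Plane}
    (he : e ∈ TS M) (hf : f ∈ TS M) (he' : e ∉ TS M') (hf' : f ∉ TS M') (hne : e ≠ f) :
    ¬ InCommonTriangle S (TS M) e f := by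
  rintro ⟨a, b, c, ⟨h1, h2, h3, -⟩, h5, h6⟩
  have key : ∀ x y z : Plane, s(x, y) ∈ TS M → s(y, z) ∈ TS M → s(x, z) ∈ TS M →
      s(x, y) ∉ TS M' → s(y, z) ∉ TS M' → False := by
    intro x y z g1 g2 g3 g4 g5
    obtain ⟨i, j, hij, hj, -, hxy⟩ := id g1
    obtain ⟨k, l, hkl, hl, -, hyz⟩ := id g2
    obtain ⟨k', l', hkl', hl', -, hxz⟩ := id g3
    have ex : ∃ i, i < 19 ∧ x = pt i := by
      rw [Sym2.eq_iff] at hxy
      rcases hxy with ⟨h, -⟩ | ⟨h, -⟩
      · exact ⟨i, by omega, h⟩
      · exact ⟨j, hj, h⟩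
    have ey : ∃ i, i < 19 ∧ y = pt i := by
      rw [Sym2.eq_iff] at hxy
      rcases hxy with ⟨-, h⟩ | ⟨-, h⟩
      · exact ⟨j, hj, h⟩
      · exact ⟨i, by omega, h⟩
    have ez : ∃ i, i < 19 ∧ z = pt i := by
      rw [Sym2.eq_iff] at hyz
      rcases hyz with ⟨-, h⟩ | ⟨-, h⟩
      · exact ⟨l, hl, h⟩
      · exact ⟨k, by omega, h⟩
    obtain ⟨p, hp, rfl⟩ := ex
    obtain ⟨q, hq, rfl⟩ := ey
    obtain ⟨r, hr, rfl⟩ := ez
    have n1 : p ≠ q := by
      rintro rfl
      have := (isEdge_pt hij hj).1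
      rw [← hxy, Sym2.mk_isDiag_iff] at this
      exact this rfl
    have n2 : q ≠ r := by
      rintro rfl
      have := (isEdge_pt hkl hl).1
      rw [← hyz, Sym2.mk_isDiag_iff] at this
      exact this rfl
    have n3 : p ≠ r := by
      rintro rfl
      have := (isEdge_pt hkl' hl').1
      rw [← hxz, Sym2.mk_isDiag_iff] at this
      exact this rfl
    exact stepB_sound h hp hq hr n1 n2 n3 g1 g2 g3 g4 g5
  have sw : ∀ x y : Plane, s(x, y) = s(y, x) := fun x y => Sym2.eq_swap
  rcases h5 with rfl | rfl | rfl <;> rcases h6 with rfl | rfl | rfl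
  · exact hne rfl
  · exact key a b c he hf h3 he' hf'
  · exact key b a c (by rw [sw]; exact he) hf h2 (by rw [sw]; exact he') hf'
  · exact key a b c hf he h3 hf' he'
  · exact hne rfl
  · exact key b c a he (by rw [sw]; exact hf) (by rw [sw]; exact h1) he' (by rw [sw]; exact hf')
  · exact key b a c (by rw [sw]; exact hf) he h2 (by rw [sw]; exact hf') he'
  · exact key b c a hf (by rw [sw]; exact he) (by rw [sw]; exact h1) hf' (by rw [sw]; exact he')
  · exact hne rfl

theorem flip_of_stepB {M M' : ℕ} (h : stepB M M' = true) (h' : triB M' = true) :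
    ParallelFlip S (TS M) (TS M') := by
  refine ⟨TS M \ TS M', TS M' \ TS M, Set.sdiff_subset, ?_, ?_, tri_of_triB h'⟩
  · intro e he f hf hne
    exact no_common h he.1 hf.1 he.2 hf.2 hne
  · ext e
    simp only [Set.mem_union, Set.mem_sdiff, not_and, not_not]
    tauto

end Pool.Agent.N386.HF
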