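import Pool.Agent.N386.HF.Chk
import Pool.Agent.N386.HF.Tri

/-! The two triangulations of the 19 points. -/

set_option exponentiation.threshold 1000

namespace Pool.Agent.N386.HF

/-- masks of the path -/
def pm (i : ℕ) : ℕ := pathL.getD i 0

lemma pm_tri {i : ℕ} (hi : i ≤ 10) : triB (pm i) = true := by
  have hlen : i < pathL.length := by rw [path_len]; omega
  unfold pm
  rw [List.getD_eq_getElem _ _ hlen]
  exact all_mem path_tri (List.getElem_mem hlen)

lemma steps_get : ∀ (l : List ℕ), stepsB l = true → ∀ i, i + 1 < l.length →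
    stepB (l.getD i 0) (l.getD (i + 1) 0) = true
  | [], _, i, hi => by simp at hi
  | [_], _, i, hi => by simp at hi
  | a :: b :: l, h, i, hi => by
    rw [stepsB, Bool.and_eq_true] at h
    cases i with
    | zero => exact h.1
    | succ i =>
      have := steps_get (b :: l) h.2 i (by simpa using hi)
      simpa using this

lemma pm_step {i : ℕ} (hi : i < 10) : stepB (pm i) (pm (i + 1)) = true :=
  steps_get pathL path_steps i (by rw [path_len]; omega)

theorem path_ten : IsPath S (TS (pm 0)) (TS (pm 10)) 10 (fun i => TS (pm i)) :=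
  ⟨rfl, rfl, fun i hi => tri_of_triB (pm_tri hi),
    fun i hi => flip_of_stepB (pm_step hi) (pm_tri (by omega))⟩

/-- the common edges -/
def C0 : Set (Sym2 Plane) := TS c0M

lemma c0_sub : C0 ⊆ TS (pm 0) ∩ TS (pm 10) := by
  rintro e ⟨i, j, hij, hj, h, rfl⟩
  have h1 := c0_ok
  rw [Nat.beq_eq] at h1
  have h2 : pm 0 &&& pm 10 = c0M := h1
  rw [← h2, Nat.testBit_and, Bool.and_eq_true] at h
  exact ⟨(mem_TS hij hj).2 h.1, (mem_TS hij hj).2 h.2⟩

/-- diagonals of the 18-gon in a triangulation -/
def dg (P : Set (Sym2 Plane)) (a b : ℕ) : Prop := s(pt a, pt b) ∈ P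

lemma side_c0 {a b : ℕ} (h : Side a b) : s(pt a, pt b) ∈ C0 := by
  have hb : b < 18 := by unfold Side at h; omega
  have hab : a < b := by unfold Side at h; omega
  have h1 := all_range (all_range fact0 (show a < 18 by omega)) hb
  have h2 : sideB a b = true := by
    unfold sideB
    unfold Side at h
    rw [Bool.or_eq_true, Bool.and_eq_true, Bool.and_eq_true, Nat.beq_eq, Nat.blt_eq, Nat.beq_eq,
      Nat.beq_eq]
    exact h
  rw [h2, tb_eq] at h1
  exact (mem_TS hab (by omega)).2 (by simpa using h1)

lemma Al.lt {a b : ℕ} (h : Al a b) : a < b ∧ b < 19 := ⟨by have := h.1; omega, by have := h.2.1; omega⟩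

/-- allowed diagonals do not cross common edges -/
lemma al_c0 {a b c d : ℕ} (h : Al a b) (hcd : c < d) (hd : d < 19) (hc : s(pt c, pt d) ∈ C0)
    (hne : ¬(a = c ∧ b = d)) (hx : Cross s(pt a, pt b) s(pt c, pt d)) : False := by
  obtain ⟨m, hm⟩ := table h.lt.1 h.lt.2
  have h1 := all_mem fact2 hm
  have h2 : alB a b = true := alB_iff.2 h
  have h3 : Nat.beq (Nat.land m c0M) 0 = true := by simpa [h2] using h1
  have h4 := (crossB_iff h.lt.1 h.lt.2 hcd hd hne).1 hx
  exact land_zero h3 (by rw [table_bit hm hcd hd]; exact h4) ((mem_TS hcd hd).1 hc)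

/-- allowed diagonals cross exactly if they interleave -/
lemma al_inter {a b c d : ℕ} (h : Al a b) (h' : Al c d) (hne : ¬(a = c ∧ b = d)) :
    Cross s(pt a, pt b) s(pt c, pt d) ↔ Inter a b c d := by
  obtain ⟨m, hm⟩ := table h.lt.1 h.lt.2
  obtain ⟨m', hm'⟩ := table h'.lt.1 h'.lt.2
  have h1 := all_mem fact3 hm
  have h2 : alB a b = true := alB_iff.2 h
  have h2' : alB c d = true := alB_iff.2 h'
  rw [Bool.or_eq_true, Bool.not_eq_true', h2] at h1
  rcases h1 with h1 | h1
  · exact absurd h1 (by simp)
  have h3 := all_mem h1 hm'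
  rw [Bool.or_eq_true, Bool.not_eq_true', h2', beq_iff_eq, tb_eq] at h3
  rcases h3 with h3 | h3
  · exact absurd h3 (by simp)
  rw [table_bit hm h'.lt.1 h'.lt.2] at h3
  rw [crossB_iff h.lt.1 h.lt.2 h'.lt.1 h'.lt.2 hne, h3]
  exact interB_iff

/-- the triangulations containing the common edges -/
lemma good_of {P : Set (Sym2 Plane)} (hP : IsTriangulation S P) (hC : C0 ⊆ P) : Good (dg P) := by
  constructor
  · intro a b c d h1 h2 hi d1 d2
    have hne : ¬(a = c ∧ b = d) := by
      unfold Inter at hi
      omega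
    refine hP.1.2 _ d1 _ d2 ?_ ((al_inter h1 h2 hne).2 hi)
    intro h
    exact hne (sym_inj h1.lt.1 h1.lt.2 h2.lt.1 h2.lt.2 h)
  · intro a b hab hn
    by_contra hcon
    push Not at hcon
    apply hn
    have hmax : IsPlane S (P ∪ {s(pt a, pt b)}) := by
      have key : ∀ f ∈ P, ¬ Cross s(pt a, pt b) f := by
        intro f hf hx
        obtain ⟨c, d, hcd, hd, rfl⟩ := edge_pt (hP.1.1 f hf)
        have hne : ¬(a = c ∧ b = d) := by
          rintro ⟨rfl, rfl⟩
          exact hn hf
        obtain ⟨m, hm⟩ := table hcd hd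
        have h1 := all_mem fact1 hm
        rw [Bool.or_eq_true, Bool.or_eq_true, tb_eq, Bool.not_eq_true'] at h1
        rcases h1 with (h1 | h1) | h1
        · exact al_c0 hab hcd hd ((mem_TS hcd hd).2 h1) hne hx
        · have h2 := alB_iff.1 h1
          exact hcon c d h2 hf ((al_inter hab h2 hne).1 hx)
        · obtain ⟨k, l, hkl, hl, h4, h5⟩ := land_ne (all_mem cmL_full hm) h1
          have h6 : s(pt k, pt l) ∈ P := hC ((mem_TS hkl hl).2 h5)
          have hne' : ¬(c = k ∧ d = l) := by
            rintro ⟨rfl, rfl⟩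
            rw [table_self hm] at h4
            exact absurd h4 (by simp)
          refine hP.1.2 _ hf _ h6 (fun h => hne' (sym_inj hcd hd hkl hl h)) ?_
          rw [crossB_iff hcd hd hkl hl hne', ← table_bit hm hkl hl]
          exact h4
      refine ⟨?_, ?_⟩
      · rintro e (he | he)
        · exact hP.1.1 e he
        · rw [Set.mem_singleton_iff] at he
          rw [he]
          exact isEdge_pt hab.lt.1 hab.lt.2
      · rintro e (he | he) f (hf | hf) hne
        · exact hP.1.2 e he f hf hne
        · rw [Set.mem_singleton_iff] at hf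
          rw [hf, cross_comm]
          exact key e he
        · rw [Set.mem_singleton_iff] at he
          rw [he]
          exact key f hf
        · rw [Set.mem_singleton_iff] at he hf
          exact absurd (he.trans hf.symm) hne
    exact hP.2 hmax Set.subset_union_left (Or.inr rfl)

lemma adj_mem {P : Set (Sym2 Plane)} (hC : C0 ⊆ P) {a b : ℕ} (h : Adj (dg P) a b) :
    s(pt a, pt b) ∈ P := by
  rcases h with h | h
  · exact hC (side_c0 h)
  · exact h.2

lemma adj_sideB {P : Set (Sym2 Plane)} {a b : ℕ} (h : Adj (dg P) a b) :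
    (sideB a b || alB a b) = true := by
  rw [Bool.or_eq_true]
  rcases h with h | h
  · left
    unfold sideB
    unfold Side at h
    rw [Bool.or_eq_true, Bool.and_eq_true, Bool.and_eq_true, Nat.beq_eq, Nat.blt_eq, Nat.beq_eq,
      Nat.beq_eq]
    exact h
  · right
    exact alB_iff.2 h.1

/-- triangles of the 18-gon are empty -/
lemma tri_empty {P : Set (Sym2 Plane)} (hC : C0 ⊆ P) {a b c : ℕ} (hab : a < b) (hbc : b < c)
    (hc : c < 18) (h1 : Adj (dg P) a b) (h2 : Adj (dg P) b c) (h3 : Adj (dg P) a c) :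
    IsTriangle S P (pt a) (pt b) (pt c) := by
  refine ⟨adj_mem hC h1, adj_mem hC h2, adj_mem hC h3, ?_⟩
  intro x hx hxs
  obtain ⟨k, hk, rfl⟩ := mem_S.1 hx
  by_cases e1 : k = a
  · left; rw [e1]
  by_cases e2 : k = b
  · right; left; rw [e2]
  by_cases e3 : k = c
  · right; right; rw [e3]
  exfalso
  have g := all_range (all_range fact4 (show a < 18 by omega)) (show b < 18 by omega)
  have g1 : (Nat.blt a b && (sideB a b || alB a b)) = true := by
    rw [Bool.and_eq_true, Nat.blt_eq]
    exact ⟨hab, adj_sideB h1⟩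
  rw [g1] at g
  have g' := all_range (show ((List.range 18).all fun c =>
        cond (Nat.blt b c && (sideB b c || alB b c) && (sideB a c || alB a c))
          ((List.range 19).all fun k =>
            Nat.beq k a || Nat.beq k b || Nat.beq k c ||
              Bool.xor (orB a b c) (orB a b k) || Bool.xor (orB a b c) (orB b c k) ||
                Bool.xor (orB a b c) (orB c a k)) true) = true from g) hc
  have g2 : (Nat.blt b c && (sideB b c || alB b c) && (sideB a c || alB a c)) = true := by
    rw [Bool.and_eq_true, Bool.and_eq_true, Nat.blt_eq]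
    exact ⟨⟨hbc, adj_sideB h2⟩, adj_sideB h3⟩
  rw [g2] at g'
  have g3 := all_range (show ((List.range 19).all fun k =>
            Nat.beq k a || Nat.beq k b || Nat.beq k c ||
              Bool.xor (orB a b c) (orB a b k) || Bool.xor (orB a b c) (orB b c k) ||
                Bool.xor (orB a b c) (orB c a k)) = true from g') hk
  rw [Bool.or_eq_true, Bool.or_eq_true, Bool.or_eq_true, Bool.or_eq_true, Bool.or_eq_true,
    Nat.beq_eq, Nat.beq_eq, Nat.beq_eq] at g3
  obtain ⟨s1, s2, s3⟩ := tri_signs hxs
  have t1 : orB b c a = orB a b c := by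
    rw [Bool.eq_iff_iff, orB_true (by omega) (by omega) (by omega),
      orB_true (by omega) (by omega) (by omega)]
    have : det (pt b) (pt c) (pt a) = det (pt a) (pt b) (pt c) := by simp only [det]; ring
    rw [this]
  have t2 : orB c a b = orB a b c := by
    rw [Bool.eq_iff_iff, orB_true (by omega) (by omega) (by omega),
      orB_true (by omega) (by omega) (by omega)]
    have : det (pt c) (pt a) (pt b) = det (pt a) (pt b) (pt c) := by simp only [det]; ring
    rw [this]
  rcases g3 with ((((g3 | g3) | g3) | g3) | g3) | g3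
  · exact e1 g3
  · exact e2 g3
  · exact e3 g3
  · rw [orB_xor (by omega) (by omega) (by omega) hk (by omega) (by omega) (by omega) (by omega)
      (by omega)] at g3
    linarith
  · rw [← t1, orB_xor (by omega) (by omega) (by omega) hk (by omega) (by omega) (by omega)
      (by omega) (by omega)] at g3
    have : det (pt b) (pt c) (pt a) = det (pt a) (pt b) (pt c) := by simp only [det]; ring
    rw [this] at g3
    linarith
  · rw [← t2, orB_xor (by omega) (by omega) (by omega) hk (by omega) (by omega) (by omega)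
      (by omega) (by omega)] at g3
    have : det (pt c) (pt a) (pt b) = det (pt a) (pt b) (pt c) := by simp only [det]; ring
    rw [this] at g3
    linarith

/-- a parallel flip keeping the common edges is a step -/
lemma step_of {P P' : Set (Sym2 Plane)} (hC : C0 ⊆ P) (hf : ParallelFlip S P P') :
    Step (dg P) (dg P') := by
  obtain ⟨E, E', -, h1, h2, -⟩ := hf
  have hE : ∀ a b, Rem (dg P) (dg P') a b → s(pt a, pt b) ∈ E := by
    rintro a b ⟨-, g1, g2⟩
    by_contra hcon
    apply g2
    show s(pt a, pt b) ∈ P'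
    rw [h2]
    exact Or.inl ⟨g1, hcon⟩
  intro a b c hab hbc hc a1 a2 a3
  have ht := tri_empty hC hab hbc hc a1 a2 a3
  refine ⟨?_, ?_, ?_⟩
  · rintro ⟨r1, r2⟩
    refine h1 _ (hE a b r1) _ (hE b c r2) ?_ ⟨_, _, _, ht, Or.inl rfl, Or.inr (Or.inl rfl)⟩
    intro h
    have := sym_inj r1.1.lt.1 r1.1.lt.2 r2.1.lt.1 r2.1.lt.2 h
    omega
  · rintro ⟨r1, r2⟩
    refine h1 _ (hE a b r1) _ (hE a c r2) ?_ ⟨_, _, _, ht, Or.inl rfl, Or.inr (Or.inr rfl)⟩
    intro h
    have := sym_inj r1.1.lt.1 r1.1.lt.2 r2.1.lt.1 r2.1.lt.2 h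
    omega
  · rintro ⟨r1, r2⟩
    refine h1 _ (hE b c r1) _ (hE a c r2) ?_
      ⟨_, _, _, ht, Or.inr (Or.inl rfl), Or.inr (Or.inr rfl)⟩
    intro h
    have := sym_inj r1.1.lt.1 r1.1.lt.2 r2.1.lt.1 r2.1.lt.2 h
    omega

lemma crL_lt' : ∀ t ∈ crL, t.2.2 < 2 ^ 361 := by
  intro t ht
  have := all_mem crL_lt ht
  rwa [Nat.blt_eq] at this

/-- both masks represent the end triangulations -/
lemma startB : ((List.range 18).all fun a => (List.range 18).all fun b =>
    !(alB a b) || (tb mT (code a b) == tb (pm 0) (code a b) &&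
      tb mT' (code a b) == tb (pm 10) (code a b))) = true := by
  decide +kernel

lemma start_rep : Rep mT (dg (TS (pm 0))) ∧ Rep mT' (dg (TS (pm 10))) := by
  have h : ∀ a b, Al a b → mT.testBit (code a b) = (pm 0).testBit (code a b) ∧
      mT'.testBit (code a b) = (pm 10).testBit (code a b) := by
    intro a b hab
    have h1 := all_range (all_range startB (show a < 18 by have := hab.1; have := hab.2.1; omega))
      hab.2.1
    rw [Bool.or_eq_true, Bool.not_eq_true', alB_iff.2 hab, Bool.and_eq_true, beq_iff_eq,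
      beq_iff_eq, tb_eq, tb_eq, tb_eq, tb_eq] at h1
    rcases h1 with h1 | h1
    · exact absurd h1 (by simp)
    · exact h1
  constructor
  · intro a b hab
    rw [(h a b hab).1]
    exact (mem_TS hab.lt.1 hab.lt.2).symm
  · intro a b hab
    rw [(h a b hab).2]
    exact (mem_TS hab.lt.1 hab.lt.2).symm

lemma alM_bit {c : ℕ} (h : alM.testBit c = true) : Al (c / 19) (c % 19) := by
  have hlt : c < 361 := by
    by_contra hge
    push Not at hge
    have h1 := alM_lt
    rw [Nat.blt_eq] at h1
    have h6 : alM < 2 ^ c := lt_of_lt_of_le h1 (Nat.pow_le_pow_right (by norm_num) hge)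
    rw [Nat.testBit_lt_two_pow h6] at h
    exact absurd h (by simp)
  have h2 := all_range alM_ok hlt
  rw [beq_iff_eq, h] at h2
  exact alB_iff.1 h2.symm

/-- canonical masks representing the same thing are equal -/
lemma rep_unique {M M' : ℕ} (h1 : Nat.beq (Nat.land M alM) M = true)
    (h2 : Nat.beq (Nat.land M' alM) M' = true) {D : ℕ → ℕ → Prop} (r1 : Rep M D)
    (r2 : Rep M' D) : M = M' := by
  rw [Nat.beq_eq] at h1 h2
  have h1' : M &&& alM = M := h1
  have h2' : M' &&& alM = M' := h2
  rw [← h1', ← h2']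
  apply Nat.eq_of_testBit_eq
  intro c
  rw [Nat.testBit_and, Nat.testBit_and]
  cases hc : alM.testBit c with
  | false => simp
  | true =>
    have hal := alM_bit hc
    have hcode : code (c / 19) (c % 19) = c := by unfold code; omega
    have e1 := r1 _ _ hal
    have e2 := r2 _ _ hal
    rw [hcode] at e1 e2
    have : M.testBit c = M'.testBit c := by
      rw [Bool.eq_iff_iff, e1, e2]
    rw [this]

/-- a path of parallel flips which keeps the common edges has length at least eleven -/
theorem happy_long {l : ℕ} {P : ℕ → Set (Sym2 Plane)}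
    (hP : IsPath S (TS (pm 0)) (TS (pm 10)) l P)
    (hh : ∀ i, 0 < i → i < l → TS (pm 0) ∩ TS (pm 10) ⊆ P i) : 11 ≤ l := by
  by_contra hcon
  push Not at hcon
  obtain ⟨p0, pl, ptri, pst⟩ := hP
  have hC : ∀ i, i ≤ l → C0 ⊆ P i := by
    intro i hi
    rcases Nat.eq_zero_or_pos i with h0 | h0
    · rw [h0, p0]
      exact fun e he => (c0_sub he).1
    · rcases Nat.lt_or_ge i l with h1 | h1
      · exact fun e he => hh i h0 h1 (c0_sub he)
      · have : i = l := by omega
        rw [this, pl]
        exact fun e he => (c0_sub he).2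
  have hgood : ∀ i, i ≤ l → Good (dg (P i)) := fun i hi => good_of (ptri i hi) (hC i hi)
  have hstep : ∀ i, i < l → Step (dg (P i)) (dg (P (i + 1))) := fun i hi =>
    step_of (hC i (by omega)) (pst i hi)
  have fwd : ∀ i, i ≤ l → i ≤ 5 → ∃ m d qs, fwdT.Mem m d qs ∧ Rep m (dg (P i)) ∧ d ≤ i := by
    intro i
    induction i with
    | zero =>
      intro _ _
      obtain ⟨d, qs, h1, h2⟩ := Tr.look_sound root_fwd
      exact ⟨mT, d, qs, h1, by rw [p0]; exact start_rep.1, h2⟩
    | succ i ih =>
      intro h1 h2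
      obtain ⟨m, d, qs, g1, g2, g3⟩ := ih (by omega) (by omega)
      obtain ⟨m', d', qs', k1, k2, k3⟩ := closed_step crL_ok crL_lt' fwd_closed
        (hgood (i + 1) h1) (hstep i (by omega)) g1 g2 (by omega)
      exact ⟨m', d', qs', k1, k2, by omega⟩
  have bwd : ∀ j, j ≤ l → j ≤ 5 → ∃ m d qs, bwdT.Mem m d qs ∧ Rep m (dg (P (l - j))) ∧
      d ≤ j := by
    intro j
    induction j with
    | zero =>
      intro _ _
      obtain ⟨d, qs, h1, h2⟩ := Tr.look_sound root_bwd
      exact ⟨mT', d, qs, h1, by rw [Nat.sub_zero, pl]; exact start_rep.2, h2⟩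
    | succ j ih =>
      intro h1 h2
      obtain ⟨m, d, qs, g1, g2, g3⟩ := ih (by omega) (by omega)
      have hst := hstep (l - (j + 1)) (by omega)
      rw [show l - (j + 1) + 1 = l - j by omega] at hst
      have hst' := step_symm (hgood (l - (j + 1)) (by omega)) (hgood (l - j) (by omega)) hst
      obtain ⟨m', d', qs', k1, k2, k3⟩ := closed_step crL_ok crL_lt' bwd_closed
        (hgood (l - (j + 1)) (by omega)) hst' g1 g2 (by omega)
      exact ⟨m', d', qs', k1, k2, by omega⟩
  obtain ⟨i, j, hi, hj, hij⟩ : ∃ i j, i ≤ 5 ∧ j ≤ 5 ∧ i + j = l := by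
    rcases Nat.le_total l 5 with h | h
    · exact ⟨l, 0, h, by omega, by omega⟩
    · exact ⟨5, l - 5, le_refl _, by omega, by omega⟩
  obtain ⟨m, d, qs, g1, g2, -⟩ := fwd i (by omega) hi
  obtain ⟨m', d', qs', k1, k2, -⟩ := bwd j (by omega) hj
  rw [show l - j = i by omega] at k2
  have heq := rep_unique (Tr.all_sound fwd_can g1) (Tr.all_sound bwd_can k1) g2 k2
  have h1 := Tr.all_sound disj g1
  have h2 := Tr.all_sound bwd_self k1
  rw [← heq] at h2
  rw [h2] at h1
  exact absurd h1 (by decide)

end Pool.Agent.N386.HF
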