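import Pool.Agent.N386.HF.Geo

namespace Pool.Agent.N386.HF

/-- first coordinates of the 19 points -/
def cxL : List ℕ := [0, 100, 200, 300, 400, 500, 600, 700, 800, 900, 894, 890, 888, 888, 890, 894,
  900, 840, 851]

/-- second coordinates of the 19 points -/
def cyL : List ℕ := [60, 0, 6, 10, 12, 12, 10, 6, 0, 100, 200, 300, 400, 500, 600, 700, 800, 900, 49]

def cx (i : ℕ) : ℕ := cxL.getD i 0
def cy (i : ℕ) : ℕ := cyL.getD i 0

/-- the points -/
def pt (i : ℕ) : Plane := ((cx i : ℝ), (cy i : ℝ))

/-- positive part of the determinant -/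
def dp (i j k : ℕ) : ℕ := cx i * cy j + cx j * cy k + cx k * cy i
/-- negative part of the determinant -/
def dn (i j k : ℕ) : ℕ := cx i * cy k + cx j * cy i + cx k * cy j

lemma det_pt (i j k : ℕ) : det (pt i) (pt j) (pt k) = (dp i j k : ℝ) - (dn i j k : ℝ) := by
  simp only [det, pt, dp, dn]
  push_cast
  ring

def ccw (i j k : ℕ) : Bool := Nat.blt (dn i j k) (dp i j k)

def distinct3 (i j k : ℕ) : Bool := !(i == j) && !(j == k) && !(i == k)

lemma genposB : ((List.range 19).all fun i => (List.range 19).all fun j =>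
    (List.range 19).all fun k => !(distinct3 i j k) || !(dn i j k == dp i j k)) = true := by
  decide +kernel

end Pool.Agent.N386.HF
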